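import Mathlib

namespace Pool.Agent.Results.MP_bd9a46_an.NotAlgebra

open MeasureTheory AddCircle in
/-- `H^∞(𝕋)` inside `L^∞(𝕋)`: essentially bounded functions on the circle `ℝ/ℤ` (with its normalised
Haar measure) whose Fourier coefficients of negative index vanish. -/
def IsHinf (g : UnitAddCircle → ℂ) : Prop :=
  MemLp g ⊤ haarAddCircle ∧ ∀ n : ℤ, n < 0 → fourierCoeff g n = 0

open MeasureTheory AddCircle in
/-- The multiplier algebra `M_p ⊂ L^∞(𝕋)`: essentially bounded functions `φ` such that convolution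
with the sequence of Fourier coefficients of `φ` maps all of `ℓ^p(ℤ)` boundedly into `ℓ^p(ℤ)`. -/
def IsMp (p : ENNReal) (φ : UnitAddCircle → ℂ) : Prop :=
  MemLp φ ⊤ haarAddCircle ∧ ∃ C : ℝ, ∀ f : lp (fun _ : ℤ => ℂ) p, ∃ g : lp (fun _ : ℤ => ℂ) p,
    (∀ n : ℤ, HasSum (fun m : ℤ => fourierCoeff φ (n - m) * f m) (g n)) ∧ ‖g‖ ≤ C * ‖f‖

open MeasureTheory AddCircle in
/-- `X_p`, the closure of `H^∞ + M_p` in the norm of `L^∞(𝕋)`. -/
def InX (p : ENNReal) (u : UnitAddCircle → ℂ) : Prop :=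
  MemLp u ⊤ haarAddCircle ∧ ∀ ε : ℝ, 0 < ε → ∃ g ψ : UnitAddCircle → ℂ, IsHinf g ∧ IsMp p ψ ∧
    eLpNorm (fun x => u x - (g x + ψ x)) ⊤ haarAddCircle ≤ ENNReal.ofReal ε

section
open Finset

/-- Block sum over `[N k, N k + N)`. -/
def Bs (N : ℕ) (k : ℤ) (u : ℤ → ℝ) : ℝ := ∑ i ∈ range N, u (N * k + i)

/-- Block average. -/
noncomputable def Eb (W : ℕ) (u : ℤ → ℝ) (n : ℤ) : ℝ := (∑ i ∈ range W, u (W * (n / W) + i)) / W

/-- Swap the two halves of each block of length `2 a`. -/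
def Sw (a : ℕ) (u : ℤ → ℝ) (n : ℤ) : ℝ := if n % (2 * a : ℕ) < a then u (n + a) else u (n - a)

/-- Block-constant functions. -/
def BC (W : ℕ) (v : ℤ → ℝ) : Prop := ∀ n, v n = v (W * (n / W))

theorem sum_range_mul' (W Q : ℕ) (G : ℕ → ℝ) :
    ∑ m ∈ range (W * Q), G m = ∑ b ∈ range Q, ∑ i ∈ range W, G (W * b + i) := by
  induction Q with
  | zero => simp
  | succ Q ih => rw [Nat.mul_succ, sum_range_add, ih, sum_range_succ]

theorem Bs_split (W Q : ℕ) (k : ℤ) (u : ℤ → ℝ) :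
    Bs (W * Q) k u = ∑ b ∈ range Q, Bs W (Q * k + b) u := by
  unfold Bs
  rw [sum_range_mul' W Q (fun m => u (((W * Q : ℕ) : ℤ) * k + m))]
  refine sum_congr rfl fun b _ => sum_congr rfl fun i _ => ?_
  congr 1
  push_cast
  ring

theorem div_block {W : ℕ} (b : ℤ) {i : ℕ} (hi : i < W) : ((W : ℤ) * b + i) / W = b := by
  have hW : (0 : ℤ) < W := by exact_mod_cast (lt_of_le_of_lt (Nat.zero_le _) hi)
  rw [Int.mul_add_ediv_left _ _ hW.ne', Int.ediv_eq_zero_of_lt (by positivity) (by exact_mod_cast hi)]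
  simp

theorem mod_block {W : ℕ} (b : ℤ) {i : ℕ} (hi : i < W) : ((W : ℤ) * b + i) % W = i := by
  rw [Int.mul_add_emod_self_left]
  exact Int.emod_eq_of_lt (by positivity) (by exact_mod_cast hi)

theorem BC_apply {W : ℕ} {v : ℤ → ℝ} (hv : BC W v) (b : ℤ) {i : ℕ} (hi : i < W) :
    v (W * b + i) = v (W * b) := by
  rw [hv, div_block b hi]

theorem Eb_apply {W : ℕ} (u : ℤ → ℝ) (b : ℤ) {i : ℕ} (hi : i < W) :
    Eb W u (W * b + i) = Bs W b u / W := by
  unfold Eb Bs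
  rw [div_block b hi]

theorem Eb_BC (W : ℕ) (u : ℤ → ℝ) : BC W (Eb W u) := by
  intro n
  unfold Eb
  rcases Nat.eq_zero_or_pos W with h | h
  · subst h; simp
  · have : (W : ℤ) * (n / W) / W = n / W := by
      rw [Int.mul_ediv_cancel_left]
      exact_mod_cast h.ne'
    rw [this]

theorem BC_of_dvd {W W' : ℕ} (hW' : 0 < W') (hd : W' ∣ W) {v : ℤ → ℝ} (hv : BC W v) : BC W' v := by
  intro n
  obtain ⟨Q, rfl⟩ := hd
  rcases Nat.eq_zero_or_pos Q with h | h
  · subst h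
    rw [hv n, hv (W' * (n / W'))]
    simp
  · rw [hv n, hv (W' * (n / W'))]
    have h1 : (n : ℤ) / ((W' * Q : ℕ) : ℤ) = (W' * (n / W')) / ((W' * Q : ℕ) : ℤ) := by
      push_cast
      rw [← Int.ediv_ediv_of_nonneg (by positivity), ← Int.ediv_ediv_of_nonneg (by positivity)]
      congr 1
      rw [Int.mul_ediv_cancel_left]
      exact_mod_cast hW'.ne'
    rw [← h1]

theorem Bs_Eb {W Q : ℕ} (k : ℤ) (u v : ℤ → ℝ) (hv : BC W v) :
    Bs (W * Q) k (fun n => Eb W u n * v n) = Bs (W * Q) k (fun n => u n * v n) := by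
  rw [Bs_split, Bs_split]
  refine sum_congr rfl fun b _ => ?_
  rcases Nat.eq_zero_or_pos W with h | h
  · subst h; simp [Bs]
  have hW : (W : ℝ) ≠ 0 := by exact_mod_cast h.ne'
  generalize (Q : ℤ) * k + b = c
  have h1 : Bs W c (fun n => Eb W u n * v n) = W * (Bs W c u / W * v (W * c)) := by
    have h3 : ∀ i ∈ range W, (fun n => Eb W u n * v n) (W * c + i) = Bs W c u / W * v (W * c) := by
      intro i hi
      show Eb W u (W * c + i) * v (W * c + i) = _
      rw [Eb_apply u c (mem_range.mp hi), BC_apply hv c (mem_range.mp hi)]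
    show ∑ i ∈ range W, (fun n => Eb W u n * v n) (W * c + i) = _
    rw [sum_congr rfl h3]
    simp
  have h2 : Bs W c (fun n => u n * v n) = Bs W c u * v (W * c) := by
    unfold Bs
    rw [sum_mul]
    refine sum_congr rfl (fun i hi => ?_)
    show u (W * c + i) * v (W * c + i) = _
    rw [BC_apply hv c (mem_range.mp hi)]
  rw [h1, h2]
  field_simp

theorem Bs_Sw {a Q : ℕ} (k : ℤ) (u v : ℤ → ℝ) (hv : BC (2 * a) v) :
    Bs (2 * a * Q) k (fun n => Sw a u n * v n) = Bs (2 * a * Q) k (fun n => u n * v n) := by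
  rw [Bs_split, Bs_split]
  refine sum_congr rfl fun b _ => ?_
  generalize (Q : ℤ) * k + b = c
  have e1 : ∀ z : ℤ → ℝ, Bs (2 * a) c (fun n => z n * v n) =
      (∑ i ∈ range (2 * a), z ((2 * a : ℕ) * c + i)) * v ((2 * a : ℕ) * c) := by
    intro z
    unfold Bs
    rw [sum_mul]
    refine sum_congr rfl (fun i hi => ?_)
    show z ((2 * a : ℕ) * c + i) * v ((2 * a : ℕ) * c + i) = _
    rw [BC_apply hv c (mem_range.mp hi)]
  rw [e1, e1]
  congr 1
  rw [show range (2 * a) = range (a + a) by rw [two_mul], sum_range_add, sum_range_add, add_comm]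
  congr 1
  · refine sum_congr rfl fun i hi => ?_
    rw [mem_range] at hi
    unfold Sw
    have h1 : ((2 * a : ℕ) * c + ((a + i : ℕ) : ℤ)) % (2 * a : ℕ) = ((a + i : ℕ) : ℤ) :=
      mod_block c (by omega)
    rw [h1, if_neg (by push_cast; omega)]
    congr 1
    push_cast; ring
  · refine sum_congr rfl fun i hi => ?_
    rw [mem_range] at hi
    unfold Sw
    have h1 : ((2 * a : ℕ) * c + ((i : ℕ) : ℤ)) % (2 * a : ℕ) = ((i : ℕ) : ℤ) :=
      mod_block c (by omega)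
    rw [h1, if_pos (by exact_mod_cast hi)]
    congr 1
    push_cast; ring

theorem Sw_BC {a W : ℕ} (hW : 0 < W) (hd : W ∣ a) {u : ℤ → ℝ} (hu : BC W u) : BC W (Sw a u) := by
  intro n
  have ha : a = 0 ∨ 0 < a := Nat.eq_zero_or_pos a
  obtain ⟨Q, rfl⟩ := hd
  have hWZ : (0 : ℤ) < W := by exact_mod_cast hW
  have hWne : (W : ℤ) ≠ 0 := hWZ.ne'
  have key : ∀ m : ℤ, u (n + W * m) = u (W * (n / W) + W * m) := by
    intro m
    rw [hu (n + W * m), hu (W * (n / W) + W * m)]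
    congr 2
    rw [Int.add_mul_ediv_left _ _ hWne, Int.add_mul_ediv_left _ _ hWne, Int.mul_ediv_cancel_left _ hWne]
  have hcond : (n % (2 * (W * Q) : ℕ) < ((W * Q : ℕ) : ℤ)) ↔
      ((W * (n / W) : ℤ) % (2 * (W * Q) : ℕ) < ((W * Q : ℕ) : ℤ)) := by
    rcases Nat.eq_zero_or_pos Q with hQ | hQ
    · subst hQ
      have h1 : (0 : ℤ) ≤ n % W := Int.emod_nonneg _ hWne
      have h2 : n % W < W := Int.emod_lt_of_pos _ hWZ
      simp only [mul_zero, Nat.cast_zero, Int.emod_zero]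
      have h3 := Int.emod_add_mul_ediv n W
      constructor
      · intro h; nlinarith
      · intro h
        by_contra hn
        push Not at hn
        have : 0 ≤ n / W := Int.ediv_nonneg hn hWZ.le
        nlinarith
    · -- write n = W*t + r
      set t := n / W with ht
      have hr : n = W * t + n % W := by rw [ht]; exact (Int.mul_ediv_add_emod n W).symm
      set r := n % W with hr'
      have h1 : (0 : ℤ) ≤ r := Int.emod_nonneg _ hWne
      have h2 : r < W := Int.emod_lt_of_pos _ hWZ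
      have hcast : ((2 * (W * Q) : ℕ) : ℤ) = W * (2 * Q) := by push_cast; ring
      have hcast2 : ((W * Q : ℕ) : ℤ) = W * Q := by push_cast; ring
      rw [hcast, hcast2]
      have h2Q : (0 : ℤ) < 2 * Q := by positivity
      have e1 : (W * t : ℤ) % (W * (2 * Q)) = W * (t % (2 * Q)) := by
        rw [Int.mul_emod_mul_of_pos _ _ hWZ]
      have e2 : n % (W * (2 * Q)) = W * (t % (2 * Q)) + r := by
        have hm : 0 ≤ t % (2 * Q) := Int.emod_nonneg _ h2Q.ne'
        have hm2 : t % (2 * Q) < 2 * Q := Int.emod_lt_of_pos _ h2Q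
        have : n = (W * (t % (2 * Q)) + r) + (W * (2 * Q)) * (t / (2 * Q)) := by
          have h5 := Int.emod_add_mul_ediv t (2 * Q)
          calc n = W * t + r := hr
            _ = W * (t % (2 * Q) + 2 * Q * (t / (2 * Q))) + r := by rw [h5]
            _ = _ := by ring
        rw [this, Int.add_mul_emod_self_left]
        apply Int.emod_eq_of_lt
        · positivity
        · nlinarith
      rw [e1, e2]
      constructor
      · intro h; nlinarith
      · intro h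
        have h6 : t % (2 * Q) < Q := by
          exact lt_of_mul_lt_mul_left h hWZ.le
        have h7 : t % (2 * Q) + 1 ≤ Q := h6
        nlinarith
  unfold Sw
  by_cases hc : n % (2 * (W * Q) : ℕ) < ((W * Q : ℕ) : ℤ)
  · rw [if_pos hc, if_pos (hcond.mp hc)]
    have := key Q
    push_cast
    exact this
  · rw [if_neg hc, if_neg (fun h => hc (hcond.mpr h))]
    have := key (-Q)
    push_cast
    rw [mul_neg] at this
    simpa [sub_eq_add_neg] using this


theorem pot_pointwise (g D k d : ℝ) :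
    (k + d) ^ 4 - 32 * ((g + D) ^ 2 * (k + d) ^ 2) - 655 * (g + D) ^ 4 ≤
      (k ^ 4 - 32 * (g ^ 2 * k ^ 2) - 655 * g ^ 4) + 4 * (d * k ^ 3) - 64 * (d * (g ^ 2 * k))
        - 64 * (D * (g * k ^ 2)) - 2620 * (D * g ^ 3) + 8 * (d ^ 2 * k ^ 2 - D ^ 2 * k ^ 2)
        + 256 * (d ^ 2 * g ^ 2 - D ^ 2 * g ^ 2) + 67 * (d ^ 4 - D ^ 4) := by
  have h1 : 0 ≤ 2 * (d * (k - d)) ^ 2 := by positivity
  have h2 : 0 ≤ 16 * (k * D + 4 * g * d) ^ 2 := by positivity
  have h3 : 0 ≤ 32 * (g * d + D * d) ^ 2 := by positivity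
  have h4 : 0 ≤ 32 * (k * D / 2 + 2 * d * D) ^ 2 := by positivity
  have h5 : 0 ≤ 64 * (D ^ 2 - d ^ 2) ^ 2 := by positivity
  have h6 : 0 ≤ 131 * (D * (5 * g + 2 * D)) ^ 2 := by positivity
  have h7 : 0 ≤ 399 * (g * D) ^ 2 := by positivity
  nlinarith [h1, h2, h3, h4, h5, h6, h7]

theorem Bs_add (N : ℕ) (k : ℤ) (u v : ℤ → ℝ) : Bs N k (fun n => u n + v n) = Bs N k u + Bs N k v := by
  unfold Bs; rw [← sum_add_distrib]

theorem Bs_smul (N : ℕ) (k : ℤ) (c : ℝ) (u : ℤ → ℝ) : Bs N k (fun n => c * u n) = c * Bs N k u := by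
  unfold Bs; rw [mul_sum]

theorem Bs_mono (N : ℕ) (k : ℤ) {u v : ℤ → ℝ} (h : ∀ n, u n ≤ v n) : Bs N k u ≤ Bs N k v :=
  sum_le_sum fun _ _ => h _

theorem Bs_sub (N : ℕ) (k : ℤ) (u v : ℤ → ℝ) : Bs N k (fun n => u n - v n) = Bs N k u - Bs N k v := by
  unfold Bs; rw [← sum_sub_distrib]

theorem BC_mul {W : ℕ} {u v : ℤ → ℝ} (hu : BC W u) (hv : BC W v) : BC W (fun n => u n * v n) := by
  intro n; show u n * v n = _; rw [hu n, hv n]

theorem BC_pow {W : ℕ} {u : ℤ → ℝ} (hu : BC W u) (m : ℕ) : BC W (fun n => u n ^ m) := by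
  intro n; show u n ^ m = _; rw [hu n]

theorem BC_sub {W : ℕ} {u v : ℤ → ℝ} (hu : BC W u) (hv : BC W v) : BC W (fun n => u n - v n) := by
  intro n; show u n - v n = _; rw [hu n, hv n]

theorem BC_add {W : ℕ} {u v : ℤ → ℝ} (hu : BC W u) (hv : BC W v) : BC W (fun n => u n + v n) := by
  intro n; show u n + v n = _; rw [hu n, hv n]

/-- Parameters: block lengths `W j` with `W (j+1) = 2 a j`, `W j ∣ a j`. -/
structure Par (W a : ℕ → ℕ) : Prop where
  W0 : W 0 = 1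
  Ws : ∀ j, W (j + 1) = 2 * a j
  dvd : ∀ j, W j ∣ a j
  apos : ∀ j, 0 < a j

theorem Par.Wpos {W a : ℕ → ℕ} (h : Par W a) (j : ℕ) : 0 < W j := by
  cases j with
  | zero => rw [h.W0]; norm_num
  | succ j => rw [h.Ws]; have := h.apos j; omega

theorem Par.dvd_succ {W a : ℕ → ℕ} (h : Par W a) (j : ℕ) : W j ∣ W (j + 1) := by
  rw [h.Ws]; exact (h.dvd j).mul_left 2

theorem Par.dvd_le {W a : ℕ → ℕ} (h : Par W a) {i j : ℕ} (hij : i ≤ j) : W i ∣ W j := by
  induction j, hij using Nat.le_induction with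
  | base => exact dvd_rfl
  | succ j _ ih => exact ih.trans (h.dvd_succ j)

/-- The difference of consecutive block averages. -/
noncomputable def Dl (W : ℕ → ℕ) (u : ℤ → ℝ) (j : ℕ) (n : ℤ) : ℝ := Eb (W j) u n - Eb (W (j + 1)) u n

/-- Tail of the transform. -/
noncomputable def Kt (W a : ℕ → ℕ) (u : ℤ → ℝ) (d j : ℕ) (n : ℤ) : ℝ :=
  ∑ i ∈ Ico j d, Sw (a i) (Dl W u i) n

theorem Dl_BC {W a : ℕ → ℕ} (h : Par W a) (u : ℤ → ℝ) (j : ℕ) : BC (W j) (Dl W u j) :=
  BC_sub (Eb_BC _ _) (BC_of_dvd (h.Wpos j) (h.dvd_succ j) (Eb_BC _ _))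

theorem Kt_BC {W a : ℕ → ℕ} (h : Par W a) (u : ℤ → ℝ) (d j : ℕ) : BC (W j) (Kt W a u d j) := by
  intro n
  unfold Kt
  refine sum_congr rfl fun i hi => ?_
  rw [mem_Ico] at hi
  have : BC (W i) (Sw (a i) (Dl W u i)) := Sw_BC (h.Wpos i) (h.dvd i) (Dl_BC h u i)
  exact BC_of_dvd (h.Wpos j) (h.dvd_le hi.1) this n

theorem Sw_pow (a : ℕ) (u : ℤ → ℝ) (m : ℕ) (n : ℤ) : (Sw a u n) ^ m = Sw a (fun x => u x ^ m) n := by
  unfold Sw
  split_ifs <;> rfl

theorem one_BC (W : ℕ) : BC W (fun _ => (1:ℝ)) := fun _ => rfl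

/-- One step of the potential argument. -/
theorem pot_step {W a : ℕ → ℕ} (h : Par W a) (u : ℤ → ℝ) (d j : ℕ) (hj : j + 1 ≤ d) (k : ℤ)
    (ih : Bs (W d) k (fun n => (Kt W a u d (j + 1) n) ^ 4
      - 32 * ((Eb (W (j + 1)) u n) ^ 2 * (Kt W a u d (j + 1) n) ^ 2)
      - 655 * (Eb (W (j + 1)) u n) ^ 4) ≤ 0) :
    Bs (W d) k (fun n => (Kt W a u d j n) ^ 4
      - 32 * ((Eb (W j) u n) ^ 2 * (Kt W a u d j n) ^ 2) - 655 * (Eb (W j) u n) ^ 4) ≤ 0 := by
  set K := Kt W a u d (j + 1) with hK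
  set g := Eb (W (j + 1)) u with hg
  set D := Dl W u j with hD
  set e := Sw (a j) D with he
  have hKj : ∀ n, Kt W a u d j n = K n + e n := by
    intro n
    simp only [hK, Kt, he, hD]
    rw [sum_eq_sum_Ico_succ_bot (by omega)]
    ring
  have hgj : ∀ n, Eb (W j) u n = g n + D n := by
    intro n; simp only [hg, hD, Dl]; ring
  obtain ⟨Q, hQ⟩ := h.dvd_le (i := j + 1) (j := d) hj
  have hKB : BC (W (j + 1)) K := Kt_BC h u d (j + 1)
  have hgB : BC (W (j + 1)) g := Eb_BC _ _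
  -- zero sums
  have hD0 : ∀ v : ℤ → ℝ, BC (W (j + 1)) v → Bs (W d) k (fun n => D n * v n) = 0 := by
    intro v hv
    have hv' : BC (W j) v := BC_of_dvd (h.Wpos j) (h.dvd_succ j) hv
    have e1 : (fun n => D n * v n) = fun n => Eb (W j) u n * v n - Eb (W (j + 1)) u n * v n := by
      ext n; simp only [hD, Dl]; ring
    rw [e1, Bs_sub]
    obtain ⟨Q', hQ'⟩ := h.dvd_le (i := j) (j := d) (by omega)
    have e2 : Bs (W d) k (fun n => Eb (W j) u n * v n) = Bs (W d) k (fun n => u n * v n) := by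
      rw [hQ']; exact Bs_Eb k u v hv'
    have e3 : Bs (W d) k (fun n => Eb (W (j + 1)) u n * v n) = Bs (W d) k (fun n => u n * v n) := by
      rw [hQ]; exact Bs_Eb k u v hv
    rw [e2, e3, sub_self]
  have hS : ∀ (z v : ℤ → ℝ), BC (W (j + 1)) v →
      Bs (W d) k (fun n => Sw (a j) z n * v n) = Bs (W d) k (fun n => z n * v n) := by
    intro z v hv
    have e1 : W d = 2 * a j * Q := by rw [hQ, h.Ws]
    rw [e1]
    apply Bs_Sw
    rw [← h.Ws]
    exact hv
  have he0 : ∀ v : ℤ → ℝ, BC (W (j + 1)) v → Bs (W d) k (fun n => e n * v n) = 0 := by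
    intro v hv
    rw [he, hS D v hv, hD0 v hv]
  have hepow : ∀ (m : ℕ) (v : ℤ → ℝ), BC (W (j + 1)) v →
      Bs (W d) k (fun n => e n ^ m * v n) = Bs (W d) k (fun n => D n ^ m * v n) := by
    intro m v hv
    have e1 : (fun n => e n ^ m * v n) = fun n => Sw (a j) (fun x => D x ^ m) n * v n := by
      ext n; rw [← Sw_pow]
    rw [e1, hS _ v hv]
  have z1 := he0 _ (BC_pow hKB 3)
  have z2 := he0 _ (BC_mul (BC_pow hgB 2) hKB)
  have z3 := hD0 _ (BC_mul hgB (BC_pow hKB 2))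
  have z4 := hD0 _ (BC_pow hgB 3)
  have z5 := hepow 2 _ (BC_pow hKB 2)
  have z6 := hepow 2 _ (BC_pow hgB 2)
  have z7 := hepow 4 _ (one_BC _)
  simp only [mul_one] at z7
  have hpt := Bs_mono (W d) k (fun n => pot_pointwise (g n) (D n) (K n) (e n))
  simp only [hKj, hgj]
  refine hpt.trans ?_
  have e9 : Bs (W d) k (fun n => (K n ^ 4 - 32 * (g n ^ 2 * K n ^ 2) - 655 * g n ^ 4)
      + 4 * (e n * K n ^ 3) - 64 * (e n * (g n ^ 2 * K n))
        - 64 * (D n * (g n * K n ^ 2)) - 2620 * (D n * g n ^ 3)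
        + 8 * (e n ^ 2 * K n ^ 2 - D n ^ 2 * K n ^ 2)
        + 256 * (e n ^ 2 * g n ^ 2 - D n ^ 2 * g n ^ 2) + 67 * (e n ^ 4 - D n ^ 4)) =
      Bs (W d) k (fun n => K n ^ 4 - 32 * (g n ^ 2 * K n ^ 2) - 655 * g n ^ 4)
      + 4 * Bs (W d) k (fun n => e n * K n ^ 3) - 64 * Bs (W d) k (fun n => e n * (g n ^ 2 * K n))
        - 64 * Bs (W d) k (fun n => D n * (g n * K n ^ 2)) - 2620 * Bs (W d) k (fun n => D n * g n ^ 3)
        + 8 * (Bs (W d) k (fun n => e n ^ 2 * K n ^ 2) - Bs (W d) k (fun n => D n ^ 2 * K n ^ 2))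
        + 256 * (Bs (W d) k (fun n => e n ^ 2 * g n ^ 2) - Bs (W d) k (fun n => D n ^ 2 * g n ^ 2))
        + 67 * (Bs (W d) k (fun n => e n ^ 4) - Bs (W d) k (fun n => D n ^ 4)) := by
    simp only [Bs_add, Bs_sub, Bs_smul]
  rw [e9, z1, z2, z3, z4, z5, z6, z7]
  linarith

theorem pot_all {W a : ℕ → ℕ} (h : Par W a) (u : ℤ → ℝ) (d : ℕ) (k : ℤ) :
    ∀ i j : ℕ, i + j = d → Bs (W d) k (fun n => (Kt W a u d j n) ^ 4
      - 32 * ((Eb (W j) u n) ^ 2 * (Kt W a u d j n) ^ 2) - 655 * (Eb (W j) u n) ^ 4) ≤ 0 := by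
  intro i
  induction i with
  | zero =>
    intro j hj
    have : j = d := by omega
    subst this
    simp only [Kt, Ico_self, sum_empty]
    have e1 : ∀ n, (0:ℝ) ^ 4 - 32 * ((Eb (W j) u n) ^ 2 * (0:ℝ) ^ 2) - 655 * (Eb (W j) u n) ^ 4 ≤ 0 := by
      intro n
      have : 0 ≤ (Eb (W j) u n) ^ 4 := by positivity
      nlinarith
    calc _ ≤ Bs (W j) k (fun _ => 0) := Bs_mono _ _ e1
      _ = 0 := by simp [Bs]
  | succ i ih =>
    intro j hj
    exact pot_step h u d j (by omega) k (ih (j + 1) (by omega))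

theorem Eb_one (u : ℤ → ℝ) : Eb 1 u = u := by
  ext n; simp [Eb]

/-- The block inequality in `ℓ⁴`. -/
theorem block_ineq {W a : ℕ → ℕ} (h : Par W a) (u : ℤ → ℝ) (d : ℕ) (k : ℤ) :
    Bs (W d) k (fun n => (Kt W a u d 0 n) ^ 4) ≤ 2334 * Bs (W d) k (fun n => (u n) ^ 4) := by
  have h0 := pot_all h u d k d 0 (by omega)
  rw [h.W0, Eb_one] at h0
  have h1 : ∀ n, (Kt W a u d 0 n) ^ 4 ≤ 2 * ((Kt W a u d 0 n) ^ 4
      - 32 * ((u n) ^ 2 * (Kt W a u d 0 n) ^ 2) - 655 * (u n) ^ 4) + 2334 * (u n) ^ 4 := by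
    intro n
    nlinarith [sq_nonneg ((Kt W a u d 0 n) ^ 2 - 32 * (u n) ^ 2)]
  have h2 := Bs_mono (W d) k h1
  rw [Bs_add, Bs_smul, Bs_smul] at h2
  linarith

end

section
open Finset

/-- Fejér average on `ℤ`. -/
noncomputable def Av (W : ℕ) (f : ℤ → ℝ) (n : ℤ) : ℝ :=
  (∑ r ∈ range W, ∑ i ∈ range W, f (n - r + i)) / (W * W)

/-- The averaged operator. -/
noncomputable def Tb (W a : ℕ → ℕ) (f : ℤ → ℝ) (d : ℕ) (n : ℤ) : ℝ :=
  ∑ j ∈ range d, ((Av (W j) f (n + a j) + Av (W j) f (n - a j)) / 2 - Av (W (j + 1)) f n)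

theorem unif0 (W : ℕ) (F : ℤ → ℝ) (n : ℤ) :
    ∑ s ∈ range W, F ((n + s) % W) = ∑ r ∈ range W, F r := by
  have step : ∀ n : ℤ, ∑ s ∈ range W, F ((n + 1 + s) % W) = ∑ s ∈ range W, F ((n + s) % W) := by
    intro n
    have h1 := sum_range_succ (fun s : ℕ => F ((n + s) % W)) W
    have h2 := sum_range_succ' (fun s : ℕ => F ((n + s) % W)) W
    have h3 : F ((n + (W:ℕ)) % W) = F ((n + (0:ℕ)) % W) := by simp
    have h4 : ∀ s : ℕ, (n + 1 + (s : ℤ)) = n + ((s + 1 : ℕ) : ℤ) := by intro s; push_cast; ring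
    simp only [h4]
    linarith
  have base : ∑ s ∈ range W, F ((0 + s) % W) = ∑ r ∈ range W, F r := by
    refine sum_congr rfl fun s hs => ?_
    rw [mem_range] at hs
    rw [zero_add, Int.emod_eq_of_lt (by positivity) (by exact_mod_cast hs)]
  induction n using Int.induction_on with
  | zero => exact base
  | succ n ih => rw [step]; exact ih
  | pred n ih => rw [← step]; simpa using ih

theorem unif (W Q : ℕ) (F : ℤ → ℝ) (n : ℤ) :
    ∑ s ∈ range (W * Q), F ((n + s) % W) = Q * ∑ r ∈ range W, F r := by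
  rw [sum_range_mul' W Q (fun s => F ((n + s) % W))]
  have : ∀ b ∈ range Q, ∑ i ∈ range W, F ((n + ((W * b + i : ℕ) : ℤ)) % W) = ∑ r ∈ range W, F r := by
    intro b _
    rw [← unif0 W F n]
    refine sum_congr rfl fun i _ => ?_
    congr 1
    have : n + ((W * b + i : ℕ) : ℤ) = n + i + W * b := by push_cast; ring
    rw [this, Int.add_mul_emod_self_left]
  rw [sum_congr rfl this]
  simp

theorem Eb_shift {W : ℕ} (f : ℤ → ℝ) (m s : ℤ) :
    Eb W (fun x => f (x - s)) m = (∑ i ∈ range W, f (m - s - m % W + i)) / W := by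
  unfold Eb
  congr 1
  refine sum_congr rfl fun i _ => ?_
  have := Int.emod_add_mul_ediv m W
  show f _ = f _
  congr 1
  linarith

theorem avg_Eb {W Q : ℕ} (hW : 0 < W) (hQ : 0 < Q) (f : ℤ → ℝ) (n : ℤ) :
    (∑ s ∈ range (W * Q), Eb W (fun x => f (x - s)) (n + s)) / ((W * Q : ℕ) : ℝ) = Av W f n := by
  have h1 : ∀ s ∈ range (W * Q), Eb W (fun x => f (x - s)) (n + s) =
      (fun t : ℤ => (∑ i ∈ range W, f (n - t + i)) / W) ((n + s) % W) := by
    intro s _
    rw [Eb_shift]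
    simp
  rw [(sum_congr rfl h1).trans (unif W Q (fun t : ℤ => (∑ i ∈ range W, f (n - t + i)) / W) n)]
  unfold Av
  rw [← sum_div]
  have hW' : (W : ℝ) ≠ 0 := by exact_mod_cast hW.ne'
  have hQ' : (Q : ℝ) ≠ 0 := by exact_mod_cast hQ.ne'
  push_cast
  field_simp

theorem avg_Sw {W P Q : ℕ} (hW : 0 < W) (hP : 0 < P) (hQ : 0 < Q) (f : ℤ → ℝ) (n : ℤ) :
    (∑ s ∈ range (2 * (W * P) * Q), Sw (W * P) (Eb W (fun x => f (x - s))) (n + s)) /
      ((2 * (W * P) * Q : ℕ) : ℝ) = (Av W f (n + (W * P : ℕ)) + Av W f (n - (W * P : ℕ))) / 2 := by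
  set a := W * P with ha
  have hWZ : (W : ℤ) ≠ 0 := by exact_mod_cast hW.ne'
  have h1 : ∀ s ∈ range (2 * a * Q), Sw a (Eb W (fun x => f (x - s))) (n + s) =
      (fun t : ℤ => if t < a then (∑ i ∈ range W, f (n + a - t % W + i)) / W
        else (∑ i ∈ range W, f (n - a - t % W + i)) / W) ((n + s) % (2 * a : ℕ)) := by
    intro s _
    have hm : ∀ t : ℤ, t % (2 * a : ℕ) % W = t % W := by
      intro t
      rw [Int.emod_emod_of_dvd]
      exact_mod_cast (Dvd.intro P ha.symm).mul_left 2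
    have hd : (W : ℤ) ∣ (a : ℤ) := by exact_mod_cast (Dvd.intro P ha.symm)
    unfold Sw
    simp only [hm]
    split_ifs with hc
    · rw [Eb_shift]
      have e1 : (n + s + (a : ℤ)) % W = (n + s) % W := by
        rw [Int.add_emod, Int.emod_eq_zero_of_dvd hd]; simp
      rw [e1]
      congr 1
      refine sum_congr rfl fun i _ => ?_
      congr 1
      ring
    · rw [Eb_shift]
      have e1 : (n + s - (a : ℤ)) % W = (n + s) % W := by
        rw [Int.sub_emod, Int.emod_eq_zero_of_dvd hd]; simp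
      rw [e1]
      congr 1
      refine sum_congr rfl fun i _ => ?_
      congr 1
      ring
  rw [(sum_congr rfl h1).trans (unif (2 * a) Q (fun t : ℤ => if t < a then (∑ i ∈ range W, f (n + a - t % W + i)) / W
        else (∑ i ∈ range W, f (n - a - t % W + i)) / W) n)]
  have h2 : ∑ r ∈ range (2 * a), (fun t : ℤ => if t < a then (∑ i ∈ range W, f (n + a - t % W + i)) / W
        else (∑ i ∈ range W, f (n - a - t % W + i)) / (W : ℝ)) (r : ℤ) =
      P * ∑ r ∈ range W, (∑ i ∈ range W, f (n + a - r + i)) / W +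
      P * ∑ r ∈ range W, (∑ i ∈ range W, f (n - a - r + i)) / W := by
    rw [show range (2 * a) = range (a + a) by rw [two_mul], sum_range_add]
    congr 1
    · have := unif W P (fun t : ℤ => (∑ i ∈ range W, f (n + a - t + i)) / W) 0
      rw [← ha] at this
      rw [← this]
      refine sum_congr rfl fun r hr => ?_
      rw [mem_range] at hr
      simp only [zero_add]
      rw [if_pos (by exact_mod_cast hr)]
    · have := unif W P (fun t : ℤ => (∑ i ∈ range W, f (n - a - t + i)) / W) a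
      rw [← ha] at this
      rw [← this]
      refine sum_congr rfl fun r hr => ?_
      have : ¬ (((a + r : ℕ) : ℤ) < (a : ℤ)) := by push_cast; omega
      simp only [if_neg this]
      push_cast
      rfl
  rw [h2]
  unfold Av
  rw [← sum_div, ← sum_div]
  have hW' : (W : ℝ) ≠ 0 := by exact_mod_cast hW.ne'
  have hQ' : (Q : ℝ) ≠ 0 := by exact_mod_cast hQ.ne'
  have hP' : (P : ℝ) ≠ 0 := by exact_mod_cast hP.ne'
  rw [ha]
  push_cast
  field_simp

theorem Sw_sub (a : ℕ) (u v : ℤ → ℝ) (n : ℤ) : Sw a (fun x => u x - v x) n = Sw a u n - Sw a v n := by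
  unfold Sw; split_ifs <;> rfl

theorem Sw_of_BC {a : ℕ} (ha : 0 < a) {v : ℤ → ℝ} (hv : BC (2 * a) v) (n : ℤ) : Sw a v n = v n := by
  have h2 : (0 : ℤ) < (2 * a : ℕ) := by exact_mod_cast (by omega : 0 < 2 * a)
  have h3 := Int.emod_add_mul_ediv n (2 * a : ℕ)
  have h4 : 0 ≤ n % (2 * a : ℕ) := Int.emod_nonneg _ h2.ne'
  have h5 : n % (2 * a : ℕ) < (2 * a : ℕ) := Int.emod_lt_of_pos _ h2
  unfold Sw
  split_ifs with hc
  · rw [hv (n + a), hv n]
    congr 2
    have : n + a = (n % (2 * a : ℕ) + a) + (2 * a : ℕ) * (n / (2 * a : ℕ)) := by linarith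
    rw [this, Int.add_mul_ediv_left _ _ h2.ne', Int.ediv_eq_zero_of_lt (by positivity) (by push_cast at *; linarith)]
    simp
  · rw [hv (n - a), hv n]
    congr 2
    push Not at hc
    have : n - a = (n % (2 * a : ℕ) - a) + (2 * a : ℕ) * (n / (2 * a : ℕ)) := by linarith
    rw [this, Int.add_mul_ediv_left _ _ h2.ne', Int.ediv_eq_zero_of_lt (by linarith) (by push_cast at *; linarith)]
    simp

theorem Tb_avg {W a : ℕ → ℕ} (h : Par W a) (f : ℤ → ℝ) (d : ℕ) (n : ℤ) :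
    Tb W a f d n = (∑ s ∈ range (W d), Kt W a (fun x => f (x - s)) d 0 (n + s)) / (W d : ℕ) := by
  unfold Tb Kt
  rw [sum_comm, sum_div, ← range_eq_Ico]
  refine sum_congr rfl fun j hj => ?_
  rw [mem_range] at hj
  obtain ⟨Q, hQ⟩ := h.dvd_le (i := j + 1) (j := d) hj
  obtain ⟨P, hP⟩ := h.dvd j
  have hQ0 : 0 < Q := by
    rcases Nat.eq_zero_or_pos Q with h0 | h0
    · have := h.Wpos d; rw [hQ, h0] at this; omega
    · exact h0
  have hP0 : 0 < P := by
    rcases Nat.eq_zero_or_pos P with h0 | h0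
    · have := h.apos j; rw [hP, h0] at this; omega
    · exact h0
  have e1 : W d = 2 * (W j * P) * Q := by rw [hQ, h.Ws, hP]
  have h1 : ∀ s ∈ range (W d), Sw (a j) (Dl W (fun x => f (x - s)) j) (n + s) =
      Sw (W j * P) (Eb (W j) (fun x => f (x - s))) (n + s) - Eb (W (j + 1)) (fun x => f (x - s)) (n + s) := by
    intro s _
    unfold Dl
    rw [Sw_sub, hP]
    congr 1
    apply Sw_of_BC (by rw [← hP]; exact h.apos j)
    rw [← hP, ← h.Ws]
    exact Eb_BC _ _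
  rw [sum_congr rfl h1, sum_sub_distrib, sub_div]
  congr 1
  · rw [e1, avg_Sw (h.Wpos j) hP0 hQ0, hP]
  · rw [hQ]
    exact (avg_Eb (h.Wpos (j + 1)) hQ0 f n).symm

end

section
open Finset ENNReal

theorem tsum_block {N : ℕ} (hN : 0 < N) (F : ℤ → ℝ≥0∞) :
    ∑' n, F n = ∑' k : ℤ, ∑ i ∈ range N, F (N * k + i) := by
  have : NeZero N := ⟨hN.ne'⟩
  rw [← (Int.divModEquiv N).symm.tsum_eq F, ENNReal.tsum_prod']
  refine tsum_congr fun k => ?_
  rw [tsum_fintype, Finset.sum_range]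
  refine Finset.sum_congr rfl fun i _ => ?_
  congr 1
  simp [Int.divModEquiv, mul_comm]

theorem l4_Kt {W a : ℕ → ℕ} (h : Par W a) (u : ℤ → ℝ) (d : ℕ) :
    ∑' n, ENNReal.ofReal ((Kt W a u d 0 n) ^ 4) ≤ 2334 * ∑' n, ENNReal.ofReal ((u n) ^ 4) := by
  rw [tsum_block (h.Wpos d) (fun n => ENNReal.ofReal ((Kt W a u d 0 n) ^ 4)),
    tsum_block (h.Wpos d) (fun n => ENNReal.ofReal ((u n) ^ 4)), ← ENNReal.tsum_mul_left]
  refine ENNReal.tsum_le_tsum fun k => ?_
  rw [← ENNReal.ofReal_sum_of_nonneg (fun _ _ => by positivity),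
    ← ENNReal.ofReal_sum_of_nonneg (fun _ _ => by positivity)]
  have := block_ineq h u d k
  calc _ ≤ ENNReal.ofReal (2334 * Bs (W d) k (fun n => (u n) ^ 4)) := ENNReal.ofReal_le_ofReal this
    _ = _ := by rw [ENNReal.ofReal_mul (by norm_num)]; congr 1; norm_num

theorem l4_Tb {W a : ℕ → ℕ} (h : Par W a) (f : ℤ → ℝ) (d : ℕ) :
    ∑' n, ENNReal.ofReal ((Tb W a f d n) ^ 4) ≤ 2334 * ∑' n, ENNReal.ofReal ((f n) ^ 4) := by
  set N := W d with hN
  have hN0 : 0 < N := h.Wpos d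
  have hNR : (0 : ℝ) < N := by exact_mod_cast hN0
  have h1 : ∀ n, ENNReal.ofReal ((Tb W a f d n) ^ 4) ≤
      ∑ s ∈ range N, ENNReal.ofReal (1 / N) *
        ENNReal.ofReal ((Kt W a (fun x => f (x - s)) d 0 (n + s)) ^ 4) := by
    intro n
    have h2 := Real.pow_arith_mean_le_arith_mean_pow_of_even (range N) (fun _ => 1 / (N : ℝ))
      (fun s => Kt W a (fun x => f (x - s)) d 0 (n + s)) (fun _ _ => by positivity)
      (by simp [hN0.ne']) (n := 4) (by decide)
    have h3 : ∑ s ∈ range N, 1 / (N : ℝ) * Kt W a (fun x => f (x - s)) d 0 (n + s) = Tb W a f d n := by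
      rw [Tb_avg h, ← mul_sum, ← hN]; ring
    rw [h3] at h2
    calc _ ≤ ENNReal.ofReal (∑ s ∈ range N, 1 / (N : ℝ) * Kt W a (fun x => f (x - s)) d 0 (n + s) ^ 4) :=
          ENNReal.ofReal_le_ofReal h2
      _ = _ := by
        rw [ENNReal.ofReal_sum_of_nonneg (fun _ _ => by positivity)]
        refine Finset.sum_congr rfl fun s _ => ?_
        rw [ENNReal.ofReal_mul (by positivity)]
  calc _ ≤ ∑' n : ℤ, ∑ s ∈ range N, ENNReal.ofReal (1 / N) *
        ENNReal.ofReal ((Kt W a (fun x => f (x - s)) d 0 (n + s)) ^ 4) := ENNReal.tsum_le_tsum h1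
    _ = ∑ s ∈ range N, ENNReal.ofReal (1 / N) * ∑' n : ℤ,
        ENNReal.ofReal ((Kt W a (fun x => f (x - s)) d 0 (n + s)) ^ 4) := by
        rw [Summable.tsum_finsetSum (fun _ _ => ENNReal.summable)]
        refine Finset.sum_congr rfl fun s _ => ?_
        rw [ENNReal.tsum_mul_left]
    _ ≤ ∑ s ∈ range N, ENNReal.ofReal (1 / N) * (2334 * ∑' n : ℤ, ENNReal.ofReal ((f n) ^ 4)) := by
        refine Finset.sum_le_sum fun s _ => ?_
        gcongr
        have e1 := (Equiv.addRight (s : ℤ)).tsum_eq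
          (fun n => ENNReal.ofReal ((Kt W a (fun x => f (x - s)) d 0 n) ^ 4))
        have e2 := (Equiv.subRight (s : ℤ)).tsum_eq (fun n => ENNReal.ofReal ((f n) ^ 4))
        simp only [Equiv.coe_addRight, Equiv.subRight_apply] at e1 e2
        rw [e1, ← e2]
        exact l4_Kt h (fun x => f (x - s)) d
    _ = _ := by
        rw [← Finset.sum_mul, sum_const, card_range, nsmul_eq_mul]
        have : (N : ℝ≥0∞) * ENNReal.ofReal (1 / N) = 1 := by
          rw [← ENNReal.ofReal_natCast, ← ENNReal.ofReal_mul (by positivity)]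
          have : (N : ℝ) * (1 / N) = 1 := by field_simp
          rw [this, ENNReal.ofReal_one]
        rw [this, one_mul]

/-- Complex version of the averaged operator. -/
noncomputable def AvC (W : ℕ) (f : ℤ → ℂ) (n : ℤ) : ℂ :=
  (∑ r ∈ range W, ∑ i ∈ range W, f (n - r + i)) / (W * W)

noncomputable def TbC (W a : ℕ → ℕ) (f : ℤ → ℂ) (d : ℕ) (n : ℤ) : ℂ :=
  ∑ j ∈ range d, ((AvC (W j) f (n + a j) + AvC (W j) f (n - a j)) / 2 - AvC (W (j + 1)) f n)

theorem AvC_re (W : ℕ) (f : ℤ → ℂ) (n : ℤ) : (AvC W f n).re = Av W (fun x => (f x).re) n := by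
  unfold AvC Av
  have : ((W : ℂ) * W) = (((W : ℝ) * W : ℝ) : ℂ) := by push_cast; rfl
  rw [this, Complex.div_ofReal_re]
  simp

theorem AvC_im (W : ℕ) (f : ℤ → ℂ) (n : ℤ) : (AvC W f n).im = Av W (fun x => (f x).im) n := by
  unfold AvC Av
  have : ((W : ℂ) * W) = (((W : ℝ) * W : ℝ) : ℂ) := by push_cast; rfl
  rw [this, Complex.div_ofReal_im]
  simp

theorem TbC_re (W a : ℕ → ℕ) (f : ℤ → ℂ) (d : ℕ) (n : ℤ) :
    (TbC W a f d n).re = Tb W a (fun x => (f x).re) d n := by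
  unfold TbC Tb
  rw [Complex.re_sum]
  refine Finset.sum_congr rfl fun j _ => ?_
  rw [Complex.sub_re, ← AvC_re, ← AvC_re, ← AvC_re, ← Complex.add_re]
  congr 1
  rw [show (2 : ℂ) = ((2 : ℝ) : ℂ) by norm_num, Complex.div_ofReal_re]

theorem TbC_im (W a : ℕ → ℕ) (f : ℤ → ℂ) (d : ℕ) (n : ℤ) :
    (TbC W a f d n).im = Tb W a (fun x => (f x).im) d n := by
  unfold TbC Tb
  rw [Complex.im_sum]
  refine Finset.sum_congr rfl fun j _ => ?_
  rw [Complex.sub_im, ← AvC_im, ← AvC_im, ← AvC_im, ← Complex.add_im]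
  congr 1
  rw [show (2 : ℂ) = ((2 : ℝ) : ℂ) by norm_num, Complex.div_ofReal_im]

theorem l4_TbC {W a : ℕ → ℕ} (h : Par W a) (f : ℤ → ℂ) (d : ℕ) :
    ∑' n, ‖TbC W a f d n‖ₑ ^ 4 ≤ 4668 * ∑' n, ‖f n‖ₑ ^ 4 := by
  have key : ∀ z : ℂ, ‖z‖ₑ ^ 4 ≤ 2 * (ENNReal.ofReal (z.re ^ 4) + ENNReal.ofReal (z.im ^ 4)) := by
    intro z
    rw [← ofReal_norm, ← ENNReal.ofReal_pow (by positivity), ← ENNReal.ofReal_add (by positivity) (by positivity)]
    rw [show (2 : ℝ≥0∞) = ENNReal.ofReal 2 by norm_num, ← ENNReal.ofReal_mul (by norm_num)]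
    apply ENNReal.ofReal_le_ofReal
    have : ‖z‖ ^ 4 = (z.re ^ 2 + z.im ^ 2) ^ 2 := by
      rw [show ‖z‖ ^ 4 = (‖z‖ ^ 2) ^ 2 by ring, Complex.sq_norm, Complex.normSq_apply]; ring
    rw [this]
    nlinarith [sq_nonneg (z.re ^ 2 - z.im ^ 2)]
  have key2 : ∀ z : ℂ, ENNReal.ofReal (z.re ^ 4) + ENNReal.ofReal (z.im ^ 4) ≤ ‖z‖ₑ ^ 4 := by
    intro z
    rw [← ofReal_norm, ← ENNReal.ofReal_pow (by positivity), ← ENNReal.ofReal_add (by positivity) (by positivity)]
    apply ENNReal.ofReal_le_ofReal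
    have : ‖z‖ ^ 4 = (z.re ^ 2 + z.im ^ 2) ^ 2 := by
      rw [show ‖z‖ ^ 4 = (‖z‖ ^ 2) ^ 2 by ring, Complex.sq_norm, Complex.normSq_apply]; ring
    rw [this]
    have : 0 ≤ z.re ^ 2 * z.im ^ 2 := by positivity
    nlinarith
  calc _ ≤ ∑' n, 2 * (ENNReal.ofReal ((TbC W a f d n).re ^ 4) + ENNReal.ofReal ((TbC W a f d n).im ^ 4)) :=
        ENNReal.tsum_le_tsum fun n => key _
    _ = 2 * (∑' n, ENNReal.ofReal ((Tb W a (fun x => (f x).re) d n) ^ 4) +
        ∑' n, ENNReal.ofReal ((Tb W a (fun x => (f x).im) d n) ^ 4)) := by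
        rw [ENNReal.tsum_mul_left, ENNReal.tsum_add]
        simp only [TbC_re, TbC_im]
    _ ≤ 2 * (2334 * ∑' n, ENNReal.ofReal ((f n).re ^ 4) + 2334 * ∑' n, ENNReal.ofReal ((f n).im ^ 4)) := by
        gcongr
        · exact l4_Tb h _ d
        · exact l4_Tb h _ d
    _ = 4668 * ∑' n, (ENNReal.ofReal ((f n).re ^ 4) + ENNReal.ofReal ((f n).im ^ 4)) := by
        rw [ENNReal.tsum_add, ← mul_add, ← mul_assoc]
        norm_num
    _ ≤ _ := by
        gcongr
        exact key2 _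

end

section
open Finset MeasureTheory AddCircle

/-- The circle of length one with normalised Haar measure. -/
abbrev Ci : Type := AddCircle (1 : ℝ)

noncomputable abbrev mu : Measure Ci := haarAddCircle

noncomputable def ex (n : ℤ) (x : Ci) : ℂ := fourier n x

theorem ex_add (m n : ℤ) (x : Ci) : ex (m + n) x = ex m x * ex n x := fourier_add

theorem ex_zero (x : Ci) : ex 0 x = 1 := fourier_zero

theorem ex_neg (n : ℤ) (x : Ci) : ex (-n) x = (starRingEnd ℂ) (ex n x) := fourier_neg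

theorem norm_ex (n : ℤ) (x : Ci) : ‖ex n x‖ = 1 := by
  unfold ex
  rw [fourier_apply]
  exact Circle.norm_coe _

theorem cont_ex (n : ℤ) : Continuous (ex n) := (fourier n).continuous

theorem int_ex (n : ℤ) : ∫ x, ex n x ∂mu = if n = 0 then 1 else 0 := by
  have h := congr_fun (fourierCoeff_fourier (T := (1:ℝ)) n) 0
  unfold fourierCoeff at h
  simp only [neg_zero, fourier_zero, one_smul] at h
  unfold ex
  rw [h]
  by_cases hn : n = 0
  · subst hn; simp
  · rw [if_neg hn, Pi.single_apply, if_neg (Ne.symm hn)]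

theorem fc_eq (f : Ci → ℂ) (n : ℤ) : fourierCoeff f n = ∫ x, f x * ex (-n) x ∂mu := by
  unfold fourierCoeff ex
  simp only [smul_eq_mul, mul_comm]

/-- `F` is a trigonometric polynomial with frequencies in `[A, B]` and `ℓ¹` coefficient mass at
most `K`. -/
def Sp (A B : ℤ) (K : ℝ) (F : Ci → ℂ) : Prop :=
  ∃ (ι : Type) (_ : Fintype ι) (c : ι → ℂ) (v : ι → ℤ), (∀ i, A ≤ v i ∧ v i ≤ B) ∧
    (∑ i, ‖c i‖ ≤ K) ∧ ∀ x, F x = ∑ i, c i * ex (v i) x

theorem Sp.nonneg {A B : ℤ} {K : ℝ} {F : Ci → ℂ} (h : Sp A B K F) : 0 ≤ K := by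
  obtain ⟨ι, _, c, v, -, h2, -⟩ := h
  exact (sum_nonneg fun _ _ => norm_nonneg _).trans h2

theorem Sp.mul {A B A' B' : ℤ} {K K' : ℝ} {F G : Ci → ℂ} (h : Sp A B K F) (h' : Sp A' B' K' G) :
    Sp (A + A') (B + B') (K * K') (fun x => F x * G x) := by
  have hK := h.nonneg
  obtain ⟨ι, _, c, v, h1, h2, h3⟩ := h
  obtain ⟨ι', _, c', v', h1', h2', h3'⟩ := h'
  refine ⟨ι × ι', inferInstance, fun p => c p.1 * c' p.2, fun p => v p.1 + v' p.2, ?_, ?_, ?_⟩
  · intro p
    have e1 := h1 p.1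
    have e2 := h1' p.2
    constructor <;> dsimp only <;> omega
  · simp only [norm_mul]
    rw [← univ_product_univ, sum_product]
    simp only
    rw [← sum_mul_sum]
    exact mul_le_mul h2 h2' (sum_nonneg fun _ _ => norm_nonneg _) hK
  · intro x
    simp only
    rw [h3, h3', sum_mul_sum, ← univ_product_univ, sum_product]
    refine sum_congr rfl fun i _ => sum_congr rfl fun j _ => ?_
    rw [ex_add]
    ring

theorem Sp.add {A B : ℤ} {K K' : ℝ} {F G : Ci → ℂ} (h : Sp A B K F) (h' : Sp A B K' G) :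
    Sp A B (K + K') (fun x => F x + G x) := by
  obtain ⟨ι, _, c, v, h1, h2, h3⟩ := h
  obtain ⟨ι', _, c', v', h1', h2', h3'⟩ := h'
  refine ⟨ι ⊕ ι', inferInstance, Sum.elim c c', Sum.elim v v', ?_, ?_, ?_⟩
  · rintro (i | i)
    · exact h1 i
    · exact h1' i
  · rw [Fintype.sum_sum_type]
    simp only [Sum.elim_inl, Sum.elim_inr]
    linarith
  · intro x
    simp only
    rw [h3, h3', Fintype.sum_sum_type]
    simp only [Sum.elim_inl, Sum.elim_inr]

theorem Sp.smul {A B : ℤ} {K : ℝ} {F : Ci → ℂ} (h : Sp A B K F) (z : ℂ) :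
    Sp A B (‖z‖ * K) (fun x => z * F x) := by
  obtain ⟨ι, _, c, v, h1, h2, h3⟩ := h
  refine ⟨ι, inferInstance, fun i => z * c i, v, h1, ?_, ?_⟩
  · simp only [norm_mul]
    rw [← mul_sum]
    exact mul_le_mul_of_nonneg_left h2 (norm_nonneg _)
  · intro x
    simp only
    rw [h3, mul_sum]
    exact sum_congr rfl fun _ _ => by ring

theorem Sp.sub {A B : ℤ} {K K' : ℝ} {F G : Ci → ℂ} (h : Sp A B K F) (h' : Sp A B K' G) :
    Sp A B (K + K') (fun x => F x - G x) := by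
  have := h.add (h'.smul (-1))
  simpa [sub_eq_add_neg] using this

theorem Sp.conj {A B : ℤ} {K : ℝ} {F : Ci → ℂ} (h : Sp A B K F) :
    Sp (-B) (-A) K (fun x => (starRingEnd ℂ) (F x)) := by
  obtain ⟨ι, _, c, v, h1, h2, h3⟩ := h
  refine ⟨ι, inferInstance, fun i => (starRingEnd ℂ) (c i), fun i => - v i, ?_, ?_, ?_⟩
  · intro i
    have := h1 i
    constructor <;> dsimp only <;> omega
  · simpa using h2
  · intro x
    simp only
    rw [h3, map_sum]
    refine sum_congr rfl fun i _ => ?_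
    rw [ex_neg, map_mul]

theorem Sp.mono {A B A' B' : ℤ} {K K' : ℝ} {F : Ci → ℂ} (h : Sp A B K F) (hA : A' ≤ A) (hB : B ≤ B')
    (hK : K ≤ K') : Sp A' B' K' F := by
  obtain ⟨ι, _, c, v, h1, h2, h3⟩ := h
  refine ⟨ι, inferInstance, c, v, fun i => ⟨hA.trans (h1 i).1, (h1 i).2.trans hB⟩, h2.trans hK, h3⟩

theorem Sp_ex (n : ℤ) : Sp n n 1 (ex n) := by
  refine ⟨Unit, inferInstance, fun _ => 1, fun _ => n, fun _ => ⟨le_rfl, le_rfl⟩, by simp, by simp⟩

theorem Sp.cont {A B : ℤ} {K : ℝ} {F : Ci → ℂ} (h : Sp A B K F) : Continuous F := by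
  obtain ⟨ι, _, c, v, h1, h2, h3⟩ := h
  have : F = fun x => ∑ i, c i * ex (v i) x := funext h3
  rw [this]
  exact continuous_finsetSum _ fun i _ => continuous_const.mul (cont_ex _)

theorem integrable_mul_ex {g : Ci → ℂ} (hg : Integrable g mu) (n : ℤ) :
    Integrable (fun x => g x * ex n x) mu := by
  refine hg.mul_bdd (c := 1) (cont_ex n).aestronglyMeasurable (Filter.Eventually.of_forall fun x => ?_)
  exact (norm_ex n x).le

theorem Sp.int_bound {A B : ℤ} {K b : ℝ} {F g : Ci → ℂ} (h : Sp A B K F) (hg : Integrable g mu)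
    (hb : ∀ n, ‖∫ x, g x * ex n x ∂mu‖ ≤ b) : ‖∫ x, g x * F x ∂mu‖ ≤ K * b := by
  obtain ⟨ι, _, c, v, h1, h2, h3⟩ := h
  have hb0 : 0 ≤ b := (norm_nonneg _).trans (hb 0)
  have e1 : ∫ x, g x * F x ∂mu = ∑ i, c i * ∫ x, g x * ex (v i) x ∂mu := by
    simp_rw [← integral_const_mul]
    rw [← integral_finsetSum]
    · congr 1
      ext x
      rw [h3, mul_sum]
      exact sum_congr rfl fun _ _ => by ring
    · intro i _
      exact (integrable_mul_ex hg _).const_mul _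
  rw [e1]
  calc _ ≤ ∑ i, ‖c i * ∫ x, g x * ex (v i) x ∂mu‖ := norm_sum_le _ _
    _ ≤ ∑ i, ‖c i‖ * b := by
      refine sum_le_sum fun i _ => ?_
      rw [norm_mul]
      exact mul_le_mul_of_nonneg_left (hb _) (norm_nonneg _)
    _ = (∑ i, ‖c i‖) * b := by rw [sum_mul]
    _ ≤ K * b := mul_le_mul_of_nonneg_right h2 hb0

theorem Sp.int_zero {A B : ℤ} {K : ℝ} {F g : Ci → ℂ} (h : Sp A B K F) (hg : Integrable g mu)
    (h0 : ∀ n, A ≤ n → n ≤ B → ∫ x, g x * ex n x ∂mu = 0) : ∫ x, g x * F x ∂mu = 0 := by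
  obtain ⟨ι, _, c, v, h1, h2, h3⟩ := h
  have e1 : ∫ x, g x * F x ∂mu = ∑ i, c i * ∫ x, g x * ex (v i) x ∂mu := by
    simp_rw [← integral_const_mul]
    rw [← integral_finsetSum]
    · congr 1
      ext x
      rw [h3, mul_sum]
      exact sum_congr rfl fun _ _ => by ring
    · intro i _
      exact (integrable_mul_ex hg _).const_mul _
  rw [e1]
  refine sum_eq_zero fun i _ => ?_
  rw [h0 _ (h1 i).1 (h1 i).2, mul_zero]

theorem Sp.int_self_zero {A B : ℤ} {K : ℝ} {F : Ci → ℂ} (h : Sp A B K F) (h0 : 0 < A ∨ B < 0) :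
    ∫ x, F x ∂mu = 0 := by
  have := h.int_zero (g := fun _ => 1) (integrable_const _) (by
    intro n h1 h2
    simp only [one_mul]
    rw [int_ex, if_neg (by omega)])
  simpa using this

/-! ### The kernels -/

/-- Product form of the normalised Dirichlet kernel of length `2 ^ k`. -/
noncomputable def Dk (k : ℕ) (x : Ci) : ℂ := ∏ i ∈ range k, (1 + ex (2 ^ i) x) / 2

noncomputable def qk (k : ℕ) (x : Ci) : ℝ := ‖Dk k x‖ ^ 2

/-- `cos² (π 2^k x)` -/
noncomputable def ck (k : ℕ) (x : Ci) : ℝ := ‖(1 + ex (2 ^ k) x) / 2‖ ^ 2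

/-- `|sin (π x)|` -/
noncomputable def sn (x : Ci) : ℝ := ‖(1 - ex 1 x) / 2‖

theorem qk_zero (x : Ci) : qk 0 x = 1 := by simp [qk, Dk]

theorem qk_succ (k : ℕ) (x : Ci) : qk (k + 1) x = qk k x * ck k x := by
  unfold qk ck Dk
  rw [prod_range_succ, norm_mul, mul_pow]

theorem ck_nonneg (k : ℕ) (x : Ci) : 0 ≤ ck k x := by unfold ck; positivity

theorem qk_nonneg (k : ℕ) (x : Ci) : 0 ≤ qk k x := by unfold qk; positivity

theorem par_id (z : ℂ) (hz : ‖z‖ = 1) : ‖(1 + z) / 2‖ ^ 2 + ‖(1 - z) / 2‖ ^ 2 = 1 := by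
  have h1 : z.re ^ 2 + z.im ^ 2 = 1 := by
    have := Complex.sq_norm z
    rw [hz, Complex.normSq_apply] at this
    linarith
  have e : ∀ w : ℂ, ‖w / 2‖ ^ 2 = (w.re ^ 2 + w.im ^ 2) / 4 := by
    intro w
    rw [norm_div, div_pow, Complex.sq_norm, Complex.normSq_apply]
    norm_num
    ring
  rw [e, e]
  simp only [Complex.add_re, Complex.one_re, Complex.add_im, Complex.one_im, Complex.sub_re, Complex.sub_im]
  nlinarith

theorem one_sub_ck (k : ℕ) (x : Ci) : 1 - ck k x = ‖(1 - ex (2 ^ k) x) / 2‖ ^ 2 := by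
  have := par_id (ex (2 ^ k) x) (norm_ex _ _)
  unfold ck
  linarith

theorem ck_le_one (k : ℕ) (x : Ci) : ck k x ≤ 1 := by
  have h1 := one_sub_ck k x
  have h2 : 0 ≤ ‖(1 - ex (2 ^ k) x) / 2‖ ^ 2 := by positivity
  linarith

theorem qk_anti_succ (k : ℕ) (x : Ci) : qk (k + 1) x ≤ qk k x := by
  rw [qk_succ]
  exact mul_le_of_le_one_right (qk_nonneg _ _) (ck_le_one _ _)

theorem qk_anti {k l : ℕ} (h : k ≤ l) (x : Ci) : qk l x ≤ qk k x := by
  induction l, h using Nat.le_induction with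
  | base => exact le_rfl
  | succ l _ ih => exact (qk_anti_succ l x).trans ih

theorem qk_le_one (k : ℕ) (x : Ci) : qk k x ≤ 1 := by
  rw [← qk_zero x]; exact qk_anti (Nat.zero_le _) x

theorem sn_nonneg (x : Ci) : 0 ≤ sn x := norm_nonneg _

theorem sn_le_one (x : Ci) : sn x ≤ 1 := by
  have h1 := par_id (ex 1 x) (norm_ex _ _)
  have h2 : 0 ≤ ‖(1 + ex 1 x) / 2‖ ^ 2 := by positivity
  have h3 : sn x ^ 2 ≤ 1 := by unfold sn; linarith
  nlinarith [sn_nonneg x]

theorem one_sub_ex_le (k : ℕ) (x : Ci) : ‖(1 - ex (2 ^ k) x) / 2‖ ≤ 2 ^ k * sn x := by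
  induction k with
  | zero => simp [sn]
  | succ k ih =>
    have h1 : (1 - ex (2 ^ (k + 1)) x) / 2 = (1 - ex (2 ^ k) x) / 2 * (1 + ex (2 ^ k) x) := by
      rw [pow_succ, mul_two, ex_add]; ring
    rw [h1, norm_mul]
    have h2 : ‖1 + ex (2 ^ k) x‖ ≤ 2 := by
      calc _ ≤ ‖(1:ℂ)‖ + ‖ex (2 ^ k) x‖ := norm_add_le _ _
        _ = 2 := by rw [norm_ex]; norm_num
    calc _ ≤ (2 ^ k * sn x) * 2 := mul_le_mul ih h2 (norm_nonneg _) (by have := sn_nonneg x; positivity)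
      _ = _ := by ring

/-- `1 - q_k ≤ 2^k |sin π x|`. -/
theorem one_sub_qk_le (k : ℕ) (x : Ci) : 1 - qk k x ≤ 2 ^ k * sn x := by
  have key : 1 - qk k x ≤ (2 ^ k - 1) * sn x := by
    induction k with
    | zero => simp [qk_zero]
    | succ k ih =>
      rw [qk_succ]
      have h1 := one_sub_ck k x
      have h2 := one_sub_ex_le k x
      have h3 : ‖(1 - ex (2 ^ k) x) / 2‖ ≤ 1 := by
        have := ck_nonneg k x
        have h4 : ‖(1 - ex (2 ^ k) x) / 2‖ ^ 2 ≤ 1 := by linarith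
        nlinarith [norm_nonneg ((1 - ex (2 ^ k) x) / 2)]
      have h5 : 1 - ck k x ≤ 2 ^ k * sn x := by
        rw [h1]
        calc _ ≤ ‖(1 - ex (2 ^ k) x) / 2‖ := by
              nlinarith [norm_nonneg ((1 - ex (2 ^ k) x) / 2)]
          _ ≤ _ := h2
      have h6 := qk_le_one k x
      have h7 := qk_nonneg k x
      have h8 : qk k x * (1 - ck k x) ≤ 1 * (2 ^ k * sn x) :=
        mul_le_mul h6 h5 (by have := ck_le_one k x; linarith) (by norm_num)
      rw [pow_succ]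
      nlinarith
  have := sn_nonneg x
  linarith

/-- `sin² (πx) q_k = 4^{-k} sin²(2^k π x)`. -/
theorem sn_sq_qk (k : ℕ) (x : Ci) : sn x ^ 2 * qk k x * 4 ^ k = 1 - ck k x := by
  induction k with
  | zero =>
    rw [one_sub_ck, qk_zero]; simp [sn]
  | succ k ih =>
    rw [qk_succ, one_sub_ck]
    have h1 : (1 - ex (2 ^ (k + 1)) x) / 2 = (1 - ex (2 ^ k) x) / 2 * ((1 + ex (2 ^ k) x) / 2) * 2 := by
      rw [pow_succ, mul_two, ex_add]; ring
    rw [h1, norm_mul, norm_mul, mul_pow, mul_pow, ← one_sub_ck, ← ih]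
    unfold ck
    rw [pow_succ]
    norm_num
    ring

theorem sn_qk_le (k : ℕ) (x : Ci) : sn x * qk k x * 2 ^ k ≤ 1 := by
  have h1 := sn_sq_qk k x
  have h2 := ck_nonneg k x
  have h3 := qk_le_one k x
  have h4 := qk_nonneg k x
  have h5 := sn_nonneg x
  have h6 : (sn x * qk k x * 2 ^ k) ^ 2 ≤ 1 := by
    calc (sn x * qk k x * 2 ^ k) ^ 2 = (sn x ^ 2 * qk k x * 4 ^ k) * qk k x := by
          rw [show (4 : ℝ) = 2 ^ 2 by norm_num, ← pow_mul, mul_comm 2 k, pow_mul]; ring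
      _ ≤ 1 * 1 := mul_le_mul (by linarith) h3 h4 (by norm_num)
      _ = 1 := by norm_num
  have h7 : 0 ≤ sn x * qk k x * 2 ^ k := by positivity
  nlinarith

theorem Dk_sum (k : ℕ) (x : Ci) : Dk k x = (∑ n ∈ range (2 ^ k), ex n x) / 2 ^ k := by
  induction k with
  | zero => simp [Dk, ex_zero]
  | succ k ih =>
    have h1 : Dk (k + 1) x = Dk k x * ((1 + ex (2 ^ k) x) / 2) := by
      unfold Dk; rw [prod_range_succ]
    rw [h1, ih, pow_succ, mul_two, sum_range_add]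
    have h2 : ∑ i ∈ range (2 ^ k), ex ((2 ^ k + i : ℕ) : ℤ) x = ex (2 ^ k) x * ∑ i ∈ range (2 ^ k), ex i x := by
      rw [mul_sum]
      refine sum_congr rfl fun i _ => ?_
      rw [← ex_add]
      push_cast
      rfl
    rw [h2, pow_succ]
    field_simp

theorem Sp_Dk (k : ℕ) : Sp 0 (2 ^ k - 1) 1 (Dk k) := by
  refine ⟨Fin (2 ^ k), inferInstance, fun _ => 1 / 2 ^ k, fun i => (i : ℕ), ?_, ?_, ?_⟩
  · intro i
    have := i.2
    constructor
    · positivity
    · have : ((i : ℕ) : ℤ) + 1 ≤ 2 ^ k := by exact_mod_cast this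
      linarith
  · simp
  · intro x
    rw [Dk_sum, Finset.sum_range, sum_div]
    refine sum_congr rfl fun i _ => by ring

theorem qk_eq (k : ℕ) (x : Ci) : (qk k x : ℂ) = Dk k x * (starRingEnd ℂ) (Dk k x) := by
  rw [Complex.mul_conj, Complex.normSq_eq_norm_sq]
  simp [qk]

theorem Sp_qk (k : ℕ) : Sp (-(2 ^ k - 1)) (2 ^ k - 1) 1 (fun x => (qk k x : ℂ)) := by
  have := (Sp_Dk k).mul (Sp_Dk k).conj
  simp only [← qk_eq, neg_zero, add_zero, zero_add, mul_one] at this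
  exact this

theorem qk_double (k : ℕ) (x : Ci) : (qk k x : ℂ) =
    (∑ r ∈ range (2 ^ k), ∑ i ∈ range (2 ^ k), ex (r - i) x) / (2 ^ k * 2 ^ k) := by
  rw [qk_eq, Dk_sum, map_div₀, map_sum, div_mul_div_comm, sum_mul_sum]
  congr 1
  · refine sum_congr rfl fun r _ => sum_congr rfl fun i _ => ?_
    rw [sub_eq_add_neg, ex_add, ex_neg]
  · rw [map_pow, map_ofNat]

theorem cont_qk (k : ℕ) : Continuous (qk k) := by
  unfold qk Dk
  exact ((continuous_finsetProd _ fun i _ => (continuous_const.add (cont_ex _)).div_const 2).norm).pow 2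

theorem int_qkC (k : ℕ) : ∫ x, (qk k x : ℂ) ∂mu = 1 / 2 ^ k := by
  simp_rw [qk_double]
  rw [integral_div, integral_finsetSum]
  · have : ∀ r ∈ range (2 ^ k), ∫ x, ∑ i ∈ range (2 ^ k), ex (r - i) x ∂mu = 1 := by
      intro r hr
      rw [integral_finsetSum]
      · simp_rw [int_ex, sub_eq_zero]
        rw [sum_eq_single_of_mem r hr]
        · simp
        · intro b _ hb
          rw [if_neg]
          exact_mod_cast hb.symm
      · intro i _
        exact (cont_ex _).integrable_of_hasCompactSupport (HasCompactSupport.of_compactSpace _)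
    rw [sum_congr rfl this]
    simp
  · intro r _
    exact (continuous_finsetSum _ fun i _ => cont_ex _).integrable_of_hasCompactSupport (HasCompactSupport.of_compactSpace _)

theorem int_qk (k : ℕ) : ∫ x, qk k x ∂mu = 1 / 2 ^ k := by
  have h := int_qkC k
  have h2 : ∫ x, (qk k x : ℂ) ∂mu = ((∫ x, qk k x ∂mu : ℝ) : ℂ) := integral_ofReal
  rw [h2] at h
  have : ((1 / 2 ^ k : ℝ) : ℂ) = 1 / 2 ^ k := by push_cast; rfl
  rw [← this] at h
  exact_mod_cast h

end

section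
open Finset MeasureTheory AddCircle

/-! ### Convolution of Fourier coefficients with finite sequences -/

noncomputable def cv (F : Ci → ℂ) (S : Finset ℤ) (f : ℤ → ℂ) (n : ℤ) : ℂ :=
  ∑ m ∈ S, fourierCoeff F (n - m) * f m

noncomputable def Pf (S : Finset ℤ) (f : ℤ → ℂ) (x : Ci) : ℂ := ∑ m ∈ S, f m * ex m x

theorem cont_Pf (S : Finset ℤ) (f : ℤ → ℂ) : Continuous (Pf S f) :=
  continuous_finsetSum _ fun _ _ => continuous_const.mul (cont_ex _)

theorem integrable_mul_cont {g G : Ci → ℂ} (hg : Integrable g mu) (hG : Continuous G) :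
    Integrable (fun x => g x * G x) mu := by
  obtain ⟨C, hC⟩ := (isCompact_univ (X := Ci)).exists_bound_of_continuousOn hG.continuousOn
  refine hg.mul_bdd (c := C) hG.aestronglyMeasurable (Filter.Eventually.of_forall fun x => ?_)
  exact hC x (Set.mem_univ _)

theorem cv_eq {F : Ci → ℂ} (hF : Integrable F mu) (S : Finset ℤ) (f : ℤ → ℂ) (n : ℤ) :
    cv F S f n = ∫ x, F x * (ex (-n) x * Pf S f x) ∂mu := by
  unfold cv
  have : ∀ x, F x * (ex (-n) x * Pf S f x) = ∑ m ∈ S, F x * ex (-(n - m)) x * f m := by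
    intro x
    unfold Pf
    rw [mul_sum, mul_sum]
    refine sum_congr rfl fun m _ => ?_
    rw [show -(n - m) = -n + m by ring, ex_add]
    ring
  simp_rw [this]
  rw [integral_finsetSum]
  · refine sum_congr rfl fun m _ => ?_
    rw [integral_mul_const, fc_eq]
  · intro m _
    exact (integrable_mul_ex hF _).mul_const _

/-- The functional applied to a continuous function. -/
noncomputable def Jf (S : Finset ℤ) (f : ℤ → ℂ) (n : ℤ) (F : Ci → ℂ) : ℂ :=
  ∫ x, F x * (ex (-n) x * Pf S f x) ∂mu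

noncomputable def rest (S : Finset ℤ) (f : ℤ → ℂ) (m : ℤ) : ℂ := if m ∈ S then f m else 0

theorem int_of_cont {F : Ci → ℂ} (hF : Continuous F) : Integrable F mu :=
  hF.integrable_of_hasCompactSupport (HasCompactSupport.of_compactSpace _)

theorem Jf_int (S : Finset ℤ) (f : ℤ → ℂ) (n : ℤ) {F : Ci → ℂ} (hF : Continuous F) :
    Integrable (fun x => F x * (ex (-n) x * Pf S f x)) mu :=
  int_of_cont (hF.mul ((cont_ex _).mul (cont_Pf _ _)))

theorem Jf_ex (S : Finset ℤ) (f : ℤ → ℂ) (n k : ℤ) : Jf S f n (ex k) = rest S f (n - k) := by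
  have h1 : cv (ex k) S f n = Jf S f n (ex k) := cv_eq (int_of_cont (cont_ex k)) S f n
  rw [← h1]
  unfold cv rest
  have h2 : ∀ m, fourierCoeff (ex k) (n - m) = if m = n - k then 1 else 0 := by
    intro m
    rw [fc_eq]
    simp_rw [← ex_add]
    rw [int_ex]
    congr 1
    simp only [eq_iff_iff]
    constructor <;> intro h <;> omega
  simp only [h2, ite_mul, one_mul, zero_mul]
  rw [sum_ite_eq' S (n - k) f]

theorem Jf_add (S : Finset ℤ) (f : ℤ → ℂ) (n : ℤ) {F G : Ci → ℂ} (hF : Continuous F) (hG : Continuous G) :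
    Jf S f n (fun x => F x + G x) = Jf S f n F + Jf S f n G := by
  unfold Jf
  rw [← integral_add (Jf_int S f n hF) (Jf_int S f n hG)]
  congr 1; ext x; ring

theorem Jf_sub (S : Finset ℤ) (f : ℤ → ℂ) (n : ℤ) {F G : Ci → ℂ} (hF : Continuous F) (hG : Continuous G) :
    Jf S f n (fun x => F x - G x) = Jf S f n F - Jf S f n G := by
  unfold Jf
  rw [← integral_sub (Jf_int S f n hF) (Jf_int S f n hG)]
  congr 1; ext x; ring

theorem Jf_div (S : Finset ℤ) (f : ℤ → ℂ) (n : ℤ) (F : Ci → ℂ) (c : ℂ) :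
    Jf S f n (fun x => F x / c) = Jf S f n F / c := by
  unfold Jf
  rw [← integral_div]
  congr 1; ext x; ring

theorem Jf_sum {ι : Type*} (T : Finset ι) (S : Finset ℤ) (f : ℤ → ℂ) (n : ℤ) {F : ι → Ci → ℂ}
    (hF : ∀ i ∈ T, Continuous (F i)) :
    Jf S f n (fun x => ∑ i ∈ T, F i x) = ∑ i ∈ T, Jf S f n (F i) := by
  unfold Jf
  rw [← integral_finsetSum _ (fun i hi => Jf_int S f n (hF i hi))]
  congr 1; ext x; rw [sum_mul]

/-- `cos (2π 2^b x)`. -/
noncomputable def Cb (b : ℕ) (x : Ci) : ℝ := 2 * ck b x - 1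

theorem Cb_eq (b : ℕ) (x : Ci) : (Cb b x : ℂ) = (ex (2 ^ b) x + ex (-(2 ^ b)) x) / 2 := by
  have h1 : (ck b x : ℂ) = ((1 + ex (2 ^ b) x) / 2) * (starRingEnd ℂ) ((1 + ex (2 ^ b) x) / 2) := by
    rw [Complex.mul_conj, Complex.normSq_eq_norm_sq]
    simp [ck]
  have h2 : ex (2 ^ b) x * ex (-(2 ^ b)) x = 1 := by
    rw [← ex_add]; simp [ex_zero]
  unfold Cb
  push_cast
  rw [h1, map_div₀, map_add, map_one, map_ofNat, ← ex_neg]
  field_simp
  linear_combination h2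

theorem cont_ck (k : ℕ) : Continuous (ck k) := by
  unfold ck
  exact (((continuous_const.add (cont_ex _)).div_const 2).norm).pow 2

theorem cont_Cb (b : ℕ) : Continuous (Cb b) := (continuous_const.mul (cont_ck b)).sub continuous_const

theorem Jf_qk_shift (S : Finset ℤ) (f : ℤ → ℂ) (n : ℤ) (k : ℕ) (a : ℤ) :
    Jf S f n (fun x => ex a x * (qk k x : ℂ)) = AvC (2 ^ k) (rest S f) (n - a) := by
  have h1 : (fun x => ex a x * (qk k x : ℂ)) = fun x =>
      (∑ r ∈ range (2 ^ k), ∑ i ∈ range (2 ^ k), ex (a + (r - i)) x) / (2 ^ k * 2 ^ k) := by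
    ext x
    rw [qk_double, ← mul_div_assoc, mul_sum]
    congr 1
    refine sum_congr rfl fun r _ => ?_
    rw [mul_sum]
    refine sum_congr rfl fun i _ => ?_
    rw [← ex_add]
  rw [h1, Jf_div, Jf_sum]
  · unfold AvC
    push_cast
    congr 1
    refine sum_congr rfl fun r _ => ?_
    rw [Jf_sum]
    · refine sum_congr rfl fun i _ => ?_
      have := Jf_ex S f n (a + (r - i))
      rw [show n - a - (r : ℤ) + i = n - (a + (r - i)) by ring, ← this]
    · intro i _; exact cont_ex _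
  · intro r _
    exact continuous_finsetSum _ fun i _ => cont_ex _

/-- Parameters. -/
def ww : ℕ → ℕ
  | 0 => 0
  | j + 1 => 9 * (ww j + j + 1) + 5

def rr (j : ℕ) : ℕ := ww j + j + 1

def bb (j : ℕ) : ℕ := 9 * rr j + 4

theorem ww_succ (j : ℕ) : ww (j + 1) = 9 * rr j + 5 := rfl

theorem par : Par (fun j => 2 ^ ww j) (fun j => 2 ^ bb j) where
  W0 := by simp [ww]
  Ws := by intro j; simp only [ww_succ, bb]; ring
  dvd := by
    intro j
    apply pow_dvd_pow
    unfold bb rr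
    omega
  apos := fun j => by positivity

/-- Terms of the multiplier. -/
noncomputable def ph (j : ℕ) (x : Ci) : ℝ := Cb (bb j) x * qk (ww j) x - qk (ww (j + 1)) x

theorem cont_ph (j : ℕ) : Continuous (ph j) :=
  ((cont_Cb _).mul (cont_qk _)).sub (cont_qk _)

theorem Jf_ph (S : Finset ℤ) (f : ℤ → ℂ) (n : ℤ) (j : ℕ) :
    Jf S f n (fun x => (ph j x : ℂ)) =
      (AvC (2 ^ ww j) (rest S f) (n + (2 ^ bb j : ℕ)) + AvC (2 ^ ww j) (rest S f) (n - (2 ^ bb j : ℕ))) / 2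
        - AvC (2 ^ ww (j + 1)) (rest S f) n := by
  have h1 : (fun x => (ph j x : ℂ)) = fun x =>
      (ex (-(2 ^ bb j)) x * (qk (ww j) x : ℂ) + ex (2 ^ bb j) x * (qk (ww j) x : ℂ)) / 2
        - ex 0 x * (qk (ww (j + 1)) x : ℂ) := by
    ext x
    unfold ph
    push_cast
    rw [Cb_eq, ex_zero]
    ring
  have c1 : ∀ (a : ℤ) (k : ℕ), Continuous (fun x => ex a x * (qk k x : ℂ)) := fun a k =>
    (cont_ex a).mul (Complex.continuous_ofReal.comp (cont_qk k))
  have c2 : Continuous (fun x => (ex (-(2 ^ bb j)) x * (qk (ww j) x : ℂ) +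
      ex (2 ^ bb j) x * (qk (ww j) x : ℂ)) / 2) := ((c1 _ _).add (c1 _ _)).div_const 2
  rw [h1, Jf_sub S f n c2 (c1 _ _), Jf_div,
    Jf_add S f n (c1 _ _) (c1 _ _), Jf_qk_shift, Jf_qk_shift, Jf_qk_shift]
  push_cast
  simp

theorem Jf_phi_d (S : Finset ℤ) (f : ℤ → ℂ) (n : ℤ) (d : ℕ) :
    Jf S f n (fun x => ∑ j ∈ range d, (ph j x : ℂ)) =
      TbC (fun j => 2 ^ ww j) (fun j => 2 ^ bb j) (rest S f) d n := by
  rw [Jf_sum]
  · unfold TbC
    refine sum_congr rfl fun j _ => ?_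
    rw [Jf_ph]
  · intro j _
    exact Complex.continuous_ofReal.comp (cont_ph j)

/-- Finite form of the `ℓ⁴` bound. -/
theorem l4_fin (S : Finset ℤ) (f : ℤ → ℂ) (d : ℕ) (T : Finset ℤ) :
    ∑ n ∈ T, ‖Jf S f n (fun x => ∑ j ∈ range d, (ph j x : ℂ))‖ ^ 4 ≤ 4668 * ∑ m ∈ S, ‖f m‖ ^ 4 := by
  have h1 := l4_TbC par (rest S f) d
  simp_rw [Jf_phi_d]
  set G := TbC (fun j => 2 ^ ww j) (fun j => 2 ^ bb j) (rest S f) d with hG
  have h2 : ∑' n, ‖rest S f n‖ₑ ^ 4 = ∑ m ∈ S, ‖f m‖ₑ ^ 4 := by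
    rw [tsum_eq_sum (s := S)]
    · refine sum_congr rfl fun m hm => ?_
      rw [rest, if_pos hm]
    · intro m hm
      rw [rest, if_neg hm]
      simp
  have h3 : ∑ n ∈ T, ‖G n‖ₑ ^ 4 ≤ 4668 * ∑ m ∈ S, ‖f m‖ₑ ^ 4 := by
    rw [← h2]
    exact (ENNReal.sum_le_tsum T).trans h1
  have h4 : ∀ (U : Finset ℤ) (g : ℤ → ℂ), ∑ n ∈ U, ‖g n‖ₑ ^ 4 = ENNReal.ofReal (∑ n ∈ U, ‖g n‖ ^ 4) := by
    intro U g
    rw [ENNReal.ofReal_sum_of_nonneg (fun _ _ => by positivity)]
    refine sum_congr rfl fun n _ => ?_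
    rw [ENNReal.ofReal_pow (norm_nonneg _), ofReal_norm]
  rw [h4, h4] at h3
  have h5 : (4668 : ENNReal) * ENNReal.ofReal (∑ m ∈ S, ‖f m‖ ^ 4) =
      ENNReal.ofReal (4668 * ∑ m ∈ S, ‖f m‖ ^ 4) := by
    rw [ENNReal.ofReal_mul (by norm_num)]; norm_num
  rw [h5, ENNReal.ofReal_le_ofReal_iff (by positivity)] at h3
  exact h3

end

section
open Finset MeasureTheory AddCircle Filter Topology

noncomputable def De (j : ℕ) (x : Ci) : ℝ := qk (ww j) x - qk (ww (j + 1)) x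

theorem ww_le_succ (j : ℕ) : ww j ≤ ww (j + 1) := by
  rw [ww_succ]; unfold rr; omega

theorem De_nonneg (j : ℕ) (x : Ci) : 0 ≤ De j x :=
  sub_nonneg.mpr (qk_anti (ww_le_succ j) x)

theorem De_sum (d : ℕ) (x : Ci) : ∑ j ∈ range d, De j x = 1 - qk (ww d) x := by
  unfold De
  rw [Finset.sum_range_sub' (fun j => qk (ww j) x)]
  simp [ww, qk_zero]

theorem De_sum_le (d : ℕ) (x : Ci) : ∑ j ∈ range d, De j x ≤ 1 := by
  rw [De_sum]; have := qk_nonneg (ww d) x; linarith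

theorem De_summable (x : Ci) : Summable (fun j => De j x) :=
  summable_of_sum_range_le (fun j => De_nonneg j x) (fun d => De_sum_le d x)

theorem De_tsum_le (x : Ci) : ∑' j, De j x ≤ 1 :=
  Real.tsum_le_of_sum_range_le (fun j => De_nonneg j x) (fun d => De_sum_le d x)

structure Dom (K : ℝ) (t : ℕ → Ci → ℂ) : Prop where
  nn : 0 ≤ K
  cont : ∀ j, Continuous (t j)
  le : ∀ j x, ‖t j x‖ ≤ K * De j x

variable {K : ℝ} {t : ℕ → Ci → ℂ}

theorem Dom.summable (h : Dom K t) (x : Ci) : Summable (fun j => t j x) :=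
  Summable.of_norm_bounded ((De_summable x).mul_left K) (fun j => h.le j x)

theorem Dom.summable_norm (h : Dom K t) (x : Ci) : Summable (fun j => ‖t j x‖) :=
  Summable.of_nonneg_of_le (fun _ => norm_nonneg _) (fun j => h.le j x) ((De_summable x).mul_left K)

theorem Dom.norm_psum (h : Dom K t) (d : ℕ) (x : Ci) : ‖∑ j ∈ range d, t j x‖ ≤ K := by
  calc _ ≤ ∑ j ∈ range d, ‖t j x‖ := norm_sum_le _ _
    _ ≤ ∑ j ∈ range d, K * De j x := sum_le_sum fun j _ => h.le j x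
    _ = K * ∑ j ∈ range d, De j x := by rw [mul_sum]
    _ ≤ K * 1 := mul_le_mul_of_nonneg_left (De_sum_le d x) h.nn
    _ = K := mul_one K

theorem Dom.norm_tsum (h : Dom K t) (x : Ci) : ‖∑' j, t j x‖ ≤ K := by
  have h1 : Tendsto (fun d => ‖∑ j ∈ range d, t j x‖) atTop (𝓝 ‖∑' j, t j x‖) :=
    (h.summable x).hasSum.tendsto_sum_nat.norm
  exact le_of_tendsto h1 (Eventually.of_forall fun d => h.norm_psum d x)

theorem Dom.tail (h : Dom K t) (j : ℕ) (x : Ci) : ‖∑' i, t i x - t j x‖ ≤ K * (1 - De j x) := by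
  have h1 := (h.summable x).tsum_eq_add_tsum_ite j
  have h2 : ∑' i, t i x - t j x = ∑' i, if i = j then 0 else t i x := by rw [h1]; ring
  rw [h2]
  have h3 := ((De_summable x).mul_left K).tsum_eq_add_tsum_ite j
  have h4 : ∀ i, ‖if i = j then (0:ℂ) else t i x‖ ≤ if i = j then 0 else K * De i x := by
    intro i
    split_ifs
    · simp
    · exact h.le i x
  have h5 : Summable (fun i => if i = j then 0 else K * De i x) := by
    refine Summable.of_nonneg_of_le (fun i => ?_) (fun i => ?_) ((De_summable x).mul_left K)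
    · split_ifs
      · exact le_rfl
      · exact mul_nonneg h.nn (De_nonneg _ _)
    · split_ifs
      · exact mul_nonneg h.nn (De_nonneg _ _)
      · exact le_rfl
  calc _ ≤ ∑' i, if i = j then 0 else K * De i x := tsum_of_norm_bounded h5.hasSum h4
    _ = K * ∑' i, De i x - K * De j x := by rw [← tsum_mul_left, h3]; ring
    _ ≤ K * 1 - K * De j x := by
      have := mul_le_mul_of_nonneg_left (De_tsum_le x) h.nn
      linarith
    _ = _ := by ring

theorem Dom.aesm (h : Dom K t) : AEStronglyMeasurable (fun x => ∑' j, t j x) mu := by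
  refine aestronglyMeasurable_of_tendsto_ae (f := fun d x => ∑ j ∈ range d, t j x) atTop ?_ ?_
  · intro d
    exact (continuous_finsetSum _ fun j _ => h.cont j).aestronglyMeasurable
  · exact Eventually.of_forall fun x => (h.summable x).hasSum.tendsto_sum_nat

theorem Dom.memLp (h : Dom K t) : MemLp (fun x => ∑' j, t j x) ⊤ mu :=
  memLp_top_of_bound h.aesm K (Eventually.of_forall fun x => h.norm_tsum x)

theorem Dom.integrable (h : Dom K t) : Integrable (fun x => ∑' j, t j x) mu :=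
  h.memLp.integrable le_top

theorem Dom.tendsto (h : Dom K t) {G : Ci → ℂ} (hG : Continuous G) :
    Tendsto (fun d => ∫ x, (∑ j ∈ range d, t j x) * G x ∂mu) atTop (𝓝 (∫ x, (∑' j, t j x) * G x ∂mu)) := by
  obtain ⟨C, hC⟩ := (isCompact_univ (X := Ci)).exists_bound_of_continuousOn hG.continuousOn
  refine tendsto_integral_of_dominated_convergence (fun _ => K * C) ?_ (integrable_const _) ?_ ?_
  · intro d
    exact ((continuous_finsetSum _ fun j _ => h.cont j).mul hG).aestronglyMeasurable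
  · intro d
    refine Eventually.of_forall fun x => ?_
    rw [norm_mul]
    exact mul_le_mul (h.norm_psum d x) (hC x (Set.mem_univ _)) (norm_nonneg _) h.nn
  · exact Eventually.of_forall fun x => (h.summable x).hasSum.tendsto_sum_nat.mul_const _

/-! ### The multiplier -/

theorem ph_le (j : ℕ) (x : Ci) : |ph j x| ≤ De j x := by
  have h1 : qk (ww (j + 1)) x = qk (bb j) x * ck (bb j) x := by
    rw [← qk_succ]; rfl
  have h2 : qk (bb j) x ≤ qk (ww j) x := qk_anti (by unfold bb rr; omega) x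
  have h3 := ck_nonneg (bb j) x
  have h4 := ck_le_one (bb j) x
  have h5 := qk_nonneg (ww j) x
  have h6 : qk (ww (j + 1)) x ≤ qk (ww j) x * ck (bb j) x := by
    rw [h1]; exact mul_le_mul_of_nonneg_right h2 h3
  unfold ph De Cb
  rw [abs_le]
  constructor <;> nlinarith

theorem dom_ph : Dom 1 (fun j x => (ph j x : ℂ)) where
  nn := zero_le_one
  cont := fun j => Complex.continuous_ofReal.comp (cont_ph j)
  le := by
    intro j x
    rw [Complex.norm_real, one_mul]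
    exact ph_le j x

noncomputable def phi (x : Ci) : ℂ := ∑' j, (ph j x : ℂ)

theorem phi_l4 (S : Finset ℤ) (f : ℤ → ℂ) (T : Finset ℤ) :
    ∑ n ∈ T, ‖cv phi S f n‖ ^ 4 ≤ 4668 * ∑ m ∈ S, ‖f m‖ ^ 4 := by
  have h1 : ∀ n, Tendsto (fun d => Jf S f n (fun x => ∑ j ∈ range d, (ph j x : ℂ))) atTop
      (𝓝 (cv phi S f n)) := by
    intro n
    rw [cv_eq (F := phi) dom_ph.integrable]
    exact dom_ph.tendsto ((cont_ex _).mul (cont_Pf _ _))
  have h2 : Tendsto (fun d => ∑ n ∈ T, ‖Jf S f n (fun x => ∑ j ∈ range d, (ph j x : ℂ))‖ ^ 4) atTop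
      (𝓝 (∑ n ∈ T, ‖cv phi S f n‖ ^ 4)) :=
    tendsto_finsetSum _ fun n _ => ((h1 n).norm.pow 4)
  exact le_of_tendsto h2 (Eventually.of_forall fun d => l4_fin S f d T)

end

section
open Finset MeasureTheory AddCircle Filter Topology

/-- Convolution with the Fourier coefficients of `φ` maps `ℓ^p(ℤ)` boundedly into itself. -/
def IsMul (p : ENNReal) (φ : Ci → ℂ) : Prop :=
  ∃ C : ℝ, ∀ f : lp (fun _ : ℤ => ℂ) p, ∃ g : lp (fun _ : ℤ => ℂ) p,
    (∀ n, HasSum (fun m => fourierCoeff φ (n - m) * f m) (g n)) ∧ ‖g‖ ≤ C * ‖f‖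

theorem toReal4 : (4 : ENNReal).toReal = 4 := by simp

theorem rpow4 (x : ℝ) : x ^ (4 : ENNReal).toReal = x ^ 4 := by
  rw [toReal4]; exact_mod_cast Real.rpow_natCast x 4

theorem weak_summable {b : ℤ → ℂ} {C : ℝ} (hb : ∀ (S : Finset ℤ) (f : ℤ → ℂ) (T : Finset ℤ),
    ∑ n ∈ T, ‖∑ m ∈ S, b (n - m) * f m‖ ^ 4 ≤ C * ∑ m ∈ S, ‖f m‖ ^ 4) :
    Summable (fun m => (‖b m‖ ^ (1 / 3 : ℝ)) ^ 4) := by
  set t : ℤ → ℝ := fun m => ‖b m‖ ^ (1 / 3 : ℝ) with ht
  have t0 : ∀ m, 0 ≤ t m := fun m => by positivity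
  have t3 : ∀ m, t m ^ 3 = ‖b m‖ := by
    intro m
    simp only [ht]
    rw [← Real.rpow_natCast, ← Real.rpow_mul (norm_nonneg _)]
    norm_num
  refine summable_of_sum_le (c := max 1 C) (fun m => by positivity) fun S => ?_
  set A := ∑ m ∈ S, t m ^ 4 with hA
  have hA0 : 0 ≤ A := sum_nonneg fun m _ => by positivity
  set f : ℤ → ℂ := fun m => (starRingEnd ℂ) (b (-m)) / ((t (-m) ^ 2 : ℝ) : ℂ) with hf
  have h1 : ∀ m, b m * f (-m) = ((t m ^ 4 : ℝ) : ℂ) := by
    intro m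
    simp only [hf, neg_neg]
    rw [mul_div_assoc', Complex.mul_conj, Complex.normSq_eq_norm_sq, ← t3 m]
    rcases (t0 m).eq_or_lt' with h | h
    · rw [h]; simp
    · have : ((t m : ℝ) : ℂ) ≠ 0 := by exact_mod_cast h.ne'
      push_cast
      field_simp
  have h2 : ∀ m, ‖f (-m)‖ ^ 4 = t m ^ 4 := by
    intro m
    simp only [hf, neg_neg]
    rw [norm_div, RCLike.norm_conj, Complex.norm_real, ← t3 m, Real.norm_of_nonneg (by positivity)]
    rcases (t0 m).eq_or_lt' with h | h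
    · rw [h]; simp
    · field_simp
  have h3 := hb (S.map (Equiv.neg ℤ).toEmbedding) f {0}
  rw [sum_singleton, sum_map, sum_map] at h3
  simp only [Equiv.coe_toEmbedding, Equiv.neg_apply, zero_sub, neg_neg] at h3
  rw [sum_congr rfl (fun m _ => h1 m), sum_congr rfl (fun m _ => h2 m), ← Complex.ofReal_sum,
    Complex.norm_real, Real.norm_of_nonneg hA0, ← hA] at h3
  by_contra hc
  push Not at hc
  have hc1 : 1 < A := (le_max_left _ _).trans_lt hc
  have hc2 : C < A := (le_max_right _ _).trans_lt hc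
  have h4 : A * A ≤ A ^ 4 := by
    have : 1 ≤ A ^ 2 := by nlinarith
    nlinarith [sq_nonneg A]
  nlinarith

/-- Boundedness on finitely supported sequences implies the multiplier condition on all of `ℓ⁴`. -/
theorem weak_strong {φ : Ci → ℂ} {C : ℝ} (hC : 0 ≤ C) (hb : ∀ (S : Finset ℤ) (f : ℤ → ℂ) (T : Finset ℤ),
    ∑ n ∈ T, ‖cv φ S f n‖ ^ 4 ≤ C * ∑ m ∈ S, ‖f m‖ ^ 4) : IsMul 4 φ := by
  refine ⟨C + 1, fun f => ?_⟩
  have hs := weak_summable (b := fourierCoeff φ) hb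
  set t : ℤ → ℝ := fun m => ‖fourierCoeff φ m‖ ^ (1 / 3 : ℝ) with ht
  have t0 : ∀ m, 0 ≤ t m := fun m => by positivity
  have t3 : ∀ m, t m ^ 3 = ‖fourierCoeff φ m‖ := by
    intro m
    simp only [ht]
    rw [← Real.rpow_natCast, ← Real.rpow_mul (norm_nonneg _)]
    norm_num
  have hf : HasSum (fun m => ‖f m‖ ^ 4) (‖f‖ ^ 4) := by
    have := lp.hasSum_norm (p := 4) (by norm_num) f
    simpa only [rpow4] using this
  have hsum : ∀ n, Summable (fun m => fourierCoeff φ (n - m) * f m) := by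
    intro n
    have h1 : Summable (fun m => t (n - m) ^ 4) := by
      exact ((Equiv.subLeft n).summable_iff (f := fun m => t m ^ 4)).mpr hs
    refine Summable.of_norm_bounded (h1.add hf.summable) fun m => ?_
    rw [norm_mul, ← t3]
    have h2 := t0 (n - m)
    have h3 := norm_nonneg (f m)
    generalize t (n - m) = a at h2 ⊢
    generalize ‖f m‖ = y at h3 ⊢
    rcases le_total y a with h | h
    · have : a ^ 3 * y ≤ a ^ 3 * a := mul_le_mul_of_nonneg_left h (by positivity)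
      have : 0 ≤ y ^ 4 := by positivity
      nlinarith
    · have h5 : a ^ 3 ≤ y ^ 3 := pow_le_pow_left₀ h2 h 3
      have : a ^ 3 * y ≤ y ^ 3 * y := mul_le_mul_of_nonneg_right h5 h3
      have : 0 ≤ a ^ 4 := by positivity
      nlinarith
  have hbd : ∀ T : Finset ℤ, ∑ n ∈ T, ‖∑' m, fourierCoeff φ (n - m) * f m‖ ^ 4 ≤ C * ‖f‖ ^ 4 := by
    intro T
    have h1 : Tendsto (fun S : Finset ℤ => ∑ n ∈ T, ‖∑ m ∈ S, fourierCoeff φ (n - m) * f m‖ ^ 4) atTop
        (𝓝 (∑ n ∈ T, ‖∑' m, fourierCoeff φ (n - m) * f m‖ ^ 4)) :=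
      tendsto_finsetSum _ fun n _ => ((hsum n).hasSum.norm.pow 4)
    refine le_of_tendsto h1 (Eventually.of_forall fun S => ?_)
    have h2 := hb S f T
    unfold cv at h2
    refine h2.trans ?_
    exact mul_le_mul_of_nonneg_left (sum_le_hasSum S (fun _ _ => by positivity) hf) hC
  have hmem : Memℓp (fun n => ∑' m, fourierCoeff φ (n - m) * f m) 4 := by
    refine memℓp_gen' (C := C * ‖f‖ ^ 4) fun T => ?_
    simp only [rpow4]
    exact hbd T
  refine ⟨⟨_, hmem⟩, fun n => (hsum n).hasSum, ?_⟩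
  refine lp.norm_le_of_forall_sum_le (by norm_num)
    (mul_nonneg (by linarith) (lp.norm_nonneg' f)) fun T => ?_
  simp only [rpow4]
  refine (hbd T).trans ?_
  have h1 : 0 ≤ ‖f‖ ^ 4 := by positivity
  have h2 : C ≤ (C + 1) ^ 4 := by
    calc C ≤ (C + 1) ^ 1 := by linarith
      _ ≤ (C + 1) ^ 4 := pow_le_pow_right₀ (by linarith) (by norm_num)
  rw [mul_pow]
  exact mul_le_mul_of_nonneg_right h2 h1

theorem isMul_phi : IsMul 4 phi := weak_strong (by norm_num) phi_l4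

theorem strong_weak {ψ : Ci → ℂ} (h : IsMul 4 ψ) : ∃ C : ℝ, 0 ≤ C ∧ ∀ (S : Finset ℤ) (f : ℤ → ℂ) (D : ℝ),
    0 ≤ D → ∑ m ∈ S, ‖f m‖ ^ 4 ≤ D ^ 4 → ∀ n, ‖cv ψ S f n‖ ≤ C * D := by
  obtain ⟨C, hC⟩ := h
  refine ⟨|C|, abs_nonneg _, fun S f D hD hf n => ?_⟩
  have h1 : ∀ T : Finset ℤ, ∑ m ∈ T, ‖rest S f m‖ ^ 4 ≤ D ^ 4 := by
    intro T
    refine le_trans ?_ hf
    calc ∑ m ∈ T, ‖rest S f m‖ ^ 4 ≤ ∑ m ∈ T ∪ S, ‖rest S f m‖ ^ 4 :=
          sum_le_sum_of_subset_of_nonneg subset_union_left fun _ _ _ => by positivity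
      _ = ∑ m ∈ S, ‖rest S f m‖ ^ 4 := by
          symm
          refine sum_subset subset_union_right fun m _ hm => ?_
          rw [rest, if_neg hm]; simp
      _ = ∑ m ∈ S, ‖f m‖ ^ 4 := sum_congr rfl fun m hm => by rw [rest, if_pos hm]
  have hmem : Memℓp (rest S f) 4 := by
    refine memℓp_gen' (C := D ^ 4) fun T => ?_
    simp only [rpow4]
    exact h1 T
  obtain ⟨g, hg1, hg2⟩ := hC ⟨rest S f, hmem⟩
  have hn : ‖(⟨rest S f, hmem⟩ : lp (fun _ : ℤ => ℂ) 4)‖ ≤ D := by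
    refine lp.norm_le_of_forall_sum_le (by norm_num) hD fun T => ?_
    simp only [rpow4]
    exact h1 T
  have h2 : g n = cv ψ S f n := by
    refine (hg1 n).unique ?_
    have : cv ψ S f n = ∑ m ∈ S, fourierCoeff ψ (n - m) * rest S f m :=
      sum_congr rfl fun m hm => by rw [rest, if_pos hm]
    rw [this]
    refine hasSum_sum_of_ne_finset_zero fun m hm => ?_
    show fourierCoeff ψ (n - m) * rest S f m = 0
    rw [rest, if_neg hm, mul_zero]
  rw [← h2]
  calc ‖g n‖ ≤ ‖g‖ := lp.norm_apply_le_norm (by norm_num) g n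
    _ ≤ C * ‖(⟨rest S f, hmem⟩ : lp (fun _ : ℤ => ℂ) 4)‖ := hg2
    _ ≤ |C| * ‖(⟨rest S f, hmem⟩ : lp (fun _ : ℤ => ℂ) 4)‖ :=
        mul_le_mul_of_nonneg_right (le_abs_self C) (lp.norm_nonneg' _)
    _ ≤ |C| * D := mul_le_mul_of_nonneg_left hn (abs_nonneg _)

/-- Converse of `weak_strong`. -/
theorem strong_weak' {ψ : Ci → ℂ} (h : IsMul 4 ψ) : ∃ C : ℝ, 0 ≤ C ∧ ∀ (S : Finset ℤ) (f : ℤ → ℂ)
    (T : Finset ℤ), ∑ n ∈ T, ‖cv ψ S f n‖ ^ 4 ≤ C * ∑ m ∈ S, ‖f m‖ ^ 4 := by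
  obtain ⟨C, hC⟩ := h
  refine ⟨C ^ 4, by positivity, fun S f T => ?_⟩
  have h0 : HasSum (fun m => ‖rest S f m‖ ^ 4) (∑ m ∈ S, ‖f m‖ ^ 4) := by
    have e : ∑ m ∈ S, ‖f m‖ ^ 4 = ∑ m ∈ S, ‖rest S f m‖ ^ 4 :=
      sum_congr rfl fun m hm => by rw [rest, if_pos hm]
    rw [e]
    refine hasSum_sum_of_ne_finset_zero fun m hm => ?_
    rw [rest, if_neg hm]; simp
  have hmem : Memℓp (rest S f) 4 := by
    refine memℓp_gen ?_
    simp only [rpow4]
    exact h0.summable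
  obtain ⟨g, hg1, hg2⟩ := hC ⟨rest S f, hmem⟩
  have hn : ‖(⟨rest S f, hmem⟩ : lp (fun _ : ℤ => ℂ) 4)‖ ^ 4 = ∑ m ∈ S, ‖f m‖ ^ 4 := by
    have h1 := lp.hasSum_norm (p := 4) (by norm_num) (⟨rest S f, hmem⟩ : lp (fun _ : ℤ => ℂ) 4)
    simp only [rpow4] at h1
    exact h1.unique h0
  have h2 : ∀ n, g n = cv ψ S f n := by
    intro n
    refine (hg1 n).unique ?_
    have : cv ψ S f n = ∑ m ∈ S, fourierCoeff ψ (n - m) * rest S f m :=
      sum_congr rfl fun m hm => by rw [rest, if_pos hm]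
    rw [this]
    refine hasSum_sum_of_ne_finset_zero fun m hm => ?_
    show fourierCoeff ψ (n - m) * rest S f m = 0
    rw [rest, if_neg hm, mul_zero]
  have h3 := lp.sum_rpow_le_norm_rpow (p := 4) (by norm_num) g T
  simp only [rpow4] at h3
  have h4 : ∑ n ∈ T, ‖cv ψ S f n‖ ^ 4 = ∑ n ∈ T, ‖g n‖ ^ 4 :=
    sum_congr rfl fun n _ => by rw [h2]
  rw [h4, ← hn, ← mul_pow]
  exact h3.trans (pow_le_pow_left₀ (lp.norm_nonneg' g) hg2 4)

end

section
open Finset MeasureTheory AddCircle Filter Topology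

/-! ### Rudin-Shapiro polynomials -/

theorem rs_exists (m : ℕ) : ∃ e d : ℕ → ℝ, (∀ n, e n = 1 ∨ e n = -1) ∧ (∀ n, d n = 1 ∨ d n = -1) ∧
    ∀ z : ℂ, ‖z‖ = 1 → ‖∑ n ∈ range (2 ^ m), (e n : ℂ) * z ^ n‖ ^ 2 +
      ‖∑ n ∈ range (2 ^ m), (d n : ℂ) * z ^ n‖ ^ 2 = 2 * 2 ^ m := by
  induction m with
  | zero =>
    refine ⟨fun _ => 1, fun _ => 1, fun _ => Or.inl rfl, fun _ => Or.inl rfl, fun z _ => ?_⟩
    simp
    norm_num
  | succ m ih =>
    obtain ⟨e, d, he, hd, h⟩ := ih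
    refine ⟨fun n => if n < 2 ^ m then e n else d (n - 2 ^ m),
      fun n => if n < 2 ^ m then e n else - d (n - 2 ^ m), ?_, ?_, ?_⟩
    · intro n
      dsimp only
      split_ifs
      · exact he n
      · exact hd _
    · intro n
      dsimp only
      split_ifs
      · exact he n
      · rcases hd (n - 2 ^ m) with h | h <;> rw [h] <;> simp
    · intro z hz
      have hs : ∀ g : ℕ → ℝ, ∑ n ∈ range (2 ^ (m + 1)), ((if n < 2 ^ m then e n else g (n - 2 ^ m) : ℝ) : ℂ) * z ^ n =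
          ∑ n ∈ range (2 ^ m), (e n : ℂ) * z ^ n + z ^ (2 ^ m) * ∑ n ∈ range (2 ^ m), (g n : ℂ) * z ^ n := by
        intro g
        rw [pow_succ, mul_two, sum_range_add]
        congr 1
        · refine sum_congr rfl fun n hn => ?_
          rw [mem_range] at hn
          rw [if_pos hn]
        · rw [mul_sum]
          refine sum_congr rfl fun n _ => ?_
          rw [if_neg (by omega), Nat.add_sub_cancel_left, pow_add]
          ring
      rw [hs d, hs (fun n => - d n)]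
      have h1 : ∑ n ∈ range (2 ^ m), (((- d n : ℝ)) : ℂ) * z ^ n = - ∑ n ∈ range (2 ^ m), (d n : ℂ) * z ^ n := by
        rw [← sum_neg_distrib]
        refine sum_congr rfl fun n _ => ?_
        push_cast
        ring
      rw [h1]
      have h2 := h z hz
      set P := ∑ n ∈ range (2 ^ m), (e n : ℂ) * z ^ n
      set Q := ∑ n ∈ range (2 ^ m), (d n : ℂ) * z ^ n
      have h3 := parallelogram_law_with_norm ℂ P (z ^ (2 ^ m) * Q)
      have h4 : ‖z ^ (2 ^ m) * Q‖ = ‖Q‖ := by rw [norm_mul, norm_pow, hz]; simp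
      rw [h4] at h3
      rw [mul_neg, ← sub_eq_add_neg, h3, h2]
      ring

noncomputable def ep (m : ℕ) : ℕ → ℝ := (rs_exists m).choose

theorem ep_sq (m n : ℕ) : ep m n * ep m n = 1 := by
  obtain ⟨d, h1, -, -⟩ := (rs_exists m).choose_spec
  rcases h1 n with h | h <;> rw [show ep m n = _ from h] <;> norm_num

theorem norm_ep (m n : ℕ) : ‖(ep m n : ℂ)‖ = 1 := by
  obtain ⟨d, h1, -, -⟩ := (rs_exists m).choose_spec
  rcases h1 n with h | h <;> rw [show ep m n = _ from h] <;> simp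

theorem ep_bound (m : ℕ) (z : ℂ) (hz : ‖z‖ = 1) :
    ‖∑ n ∈ range (2 ^ m), (ep m n : ℂ) * z ^ n‖ ^ 2 ≤ 2 * 2 ^ m := by
  obtain ⟨d, -, -, h3⟩ := (rs_exists m).choose_spec
  have := h3 z hz
  have h4 : 0 ≤ ‖∑ n ∈ range (2 ^ m), (d n : ℂ) * z ^ n‖ ^ 2 := by positivity
  have h5 : ‖∑ n ∈ range (2 ^ m), (ep m n : ℂ) * z ^ n‖ ^ 2 +
    ‖∑ n ∈ range (2 ^ m), (d n : ℂ) * z ^ n‖ ^ 2 = 2 * 2 ^ m := this
  linarith

/-- The Rudin-Shapiro polynomial with step `L`. -/
noncomputable def RS (m : ℕ) (L : ℕ) (x : Ci) : ℂ := ∑ n ∈ range (2 ^ m), (ep m n : ℂ) * ex ((n * L : ℕ)) x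

theorem ex_pow (k : ℤ) (n : ℕ) (x : Ci) : ex k x ^ n = ex (n * k) x := by
  induction n with
  | zero => simp [ex_zero]
  | succ n ih =>
    rw [pow_succ, ih, ← ex_add]
    congr 1
    push_cast
    ring

theorem RS_bound (m L : ℕ) (x : Ci) : ‖RS m L x‖ ^ 2 ≤ 2 * 2 ^ m := by
  have := ep_bound m (ex L x) (norm_ex _ _)
  simp only [ex_pow] at this
  unfold RS
  push_cast
  exact this

theorem Sp_RS (m L : ℕ) : Sp 0 ((2 ^ m - 1) * L) (2 ^ m) (RS m L) := by
  refine ⟨Fin (2 ^ m), inferInstance, fun i => (ep m i : ℂ), fun i => ((i : ℕ) * L : ℕ), ?_, ?_, ?_⟩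
  · intro i
    have := i.2
    constructor
    · positivity
    · have : ((i : ℕ) : ℤ) ≤ 2 ^ m - 1 := by
        have : ((i : ℕ) : ℤ) + 1 ≤ 2 ^ m := by exact_mod_cast this
        linarith
      push_cast
      exact mul_le_mul_of_nonneg_right this (by positivity)
  · simp only [norm_ep]
    simp
  · intro x
    unfold RS
    rw [Finset.sum_range]

/-- Orthogonality. -/
theorem RS_orth (m L : ℕ) {G : Ci → ℂ} {K : ℝ} (hG : Sp (-(L - 1)) (L - 1) K G) :
    ∫ x, G x * (RS m L x * (starRingEnd ℂ) (RS m L x)) ∂mu = 2 ^ m * ∫ x, G x ∂mu := by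
  have h1 : ∀ x, G x * (RS m L x * (starRingEnd ℂ) (RS m L x)) =
      ∑ k ∈ range (2 ^ m), ∑ l ∈ range (2 ^ m), ((ep m k * ep m l : ℝ) : ℂ) * (G x * ex (((k : ℤ) - l) * L) x) := by
    intro x
    unfold RS
    rw [map_sum, sum_mul_sum, mul_sum]
    refine sum_congr rfl fun k _ => ?_
    rw [mul_sum]
    refine sum_congr rfl fun l _ => ?_
    rw [map_mul, ← ex_neg, Complex.conj_ofReal]
    have : ex (((k : ℤ) - l) * L) x = ex ((k * L : ℕ)) x * ex (-((l * L : ℕ) : ℤ)) x := by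
      rw [← ex_add]; congr 1; push_cast; ring
    rw [this]
    push_cast
    ring
  simp_rw [h1]
  have hGc := hG.cont
  rw [integral_finsetSum]
  · have h2 : ∀ k ∈ range (2 ^ m), ∫ x, ∑ l ∈ range (2 ^ m), ((ep m k * ep m l : ℝ) : ℂ) *
        (G x * ex (((k : ℤ) - l) * L) x) ∂mu = ∫ x, G x ∂mu := by
      intro k hk
      rw [integral_finsetSum]
      · rw [sum_eq_single_of_mem k hk]
        · rw [integral_const_mul, ep_sq]
          simp [ex_zero]
        · intro l _ hl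
          rw [integral_const_mul]
          have h3 := hG.mul (Sp_ex (((k : ℤ) - l) * L))
          rw [h3.int_self_zero, mul_zero]
          rcases lt_or_gt_of_ne hl with h | h
          · left
            have : (1 : ℤ) ≤ k - l := by omega
            have : (1 : ℤ) * L ≤ (k - l) * L := mul_le_mul_of_nonneg_right this (by positivity)
            linarith
          · right
            have : (k - l : ℤ) ≤ -1 := by omega
            have : (k - l : ℤ) * L ≤ (-1) * L := mul_le_mul_of_nonneg_right this (by positivity)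
            linarith
      · intro l _
        exact int_of_cont (continuous_const.mul (hGc.mul (cont_ex _)))
    rw [sum_congr rfl h2]
    simp
  · intro k _
    exact int_of_cont (continuous_finsetSum _ fun l _ => continuous_const.mul (hGc.mul (cont_ex _)))

/-! ### The bump functions -/

/-- `χ_r = q_r - q_{r+1}`. -/
noncomputable def ch (r : ℕ) (x : Ci) : ℝ := qk r x - qk (r + 1) x

theorem ch_nonneg (r : ℕ) (x : Ci) : 0 ≤ ch r x := sub_nonneg.mpr (qk_anti_succ r x)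

theorem ch_le_qk (r : ℕ) (x : Ci) : ch r x ≤ qk r x := by
  have := qk_nonneg (r + 1) x
  unfold ch; linarith

theorem ch_le_one (r : ℕ) (x : Ci) : ch r x ≤ 1 := (ch_le_qk r x).trans (qk_le_one r x)

theorem cont_ch (r : ℕ) : Continuous (ch r) := (cont_qk _).sub (cont_qk _)

theorem ch_eq (r : ℕ) (x : Ci) : ch r x = qk r x * (1 - ck r x) := by
  unfold ch; rw [qk_succ]; ring

theorem int_ch (r : ℕ) : ∫ x, ch r x ∂mu = 1 / 2 ^ (r + 1) := by
  unfold ch
  rw [integral_sub, int_qk, int_qk]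
  · rw [pow_succ]; field_simp; norm_num
  · exact (cont_qk r).integrable_of_hasCompactSupport (HasCompactSupport.of_compactSpace _)
  · exact (cont_qk (r + 1)).integrable_of_hasCompactSupport (HasCompactSupport.of_compactSpace _)

theorem Sp_ch (r : ℕ) : Sp (-(2 * 2 ^ r - 1)) (2 * 2 ^ r - 1) 2 (fun x => (ch r x : ℂ)) := by
  have h1 := Sp_qk r
  have h2 := Sp_qk (r + 1)
  have hp : (0 : ℤ) < 2 ^ r := by positivity
  have h3 := (h1.mono (A' := -(2 * 2 ^ r - 1)) (B' := 2 * 2 ^ r - 1) (by linarith) (by linarith) le_rfl).sub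
    (h2.mono (A' := -(2 * 2 ^ r - 1)) (B' := 2 * 2 ^ r - 1) (by rw [pow_succ]; linarith)
      (by rw [pow_succ]; linarith) le_rfl)
  have h4 : (fun x => (ch r x : ℂ)) = fun x => (qk r x : ℂ) - (qk (r + 1) x : ℂ) := by
    ext x; unfold ch; push_cast; rfl
  rw [h4]
  convert h3 using 1
  norm_num

/-- `sn` at a real point. -/
theorem sn_coe (y : ℝ) : sn (y : Ci) = |Real.sin (Real.pi * y)| := by
  have h1 : ‖(1 - ex 1 (y : Ci)) / 2‖ ^ 2 = Real.sin (Real.pi * y) ^ 2 := by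
    have : ex 1 (y : Ci) = Complex.exp ((2 * Real.pi * y : ℝ) * Complex.I) := by
      unfold ex
      rw [fourier_coe_apply]
      congr 1
      push_cast
      ring
    rw [this, Complex.exp_mul_I]
    rw [norm_div, div_pow, Complex.sq_norm, Complex.normSq_apply]
    simp only [Complex.sub_re, Complex.sub_im, Complex.one_re, Complex.one_im, Complex.add_re,
      Complex.add_im, Complex.mul_re, Complex.mul_im, Complex.I_re, Complex.I_im, ← Complex.ofReal_cos,
      ← Complex.ofReal_sin, Complex.ofReal_re, Complex.ofReal_im]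
    have h2 : Real.cos (2 * Real.pi * y) = 1 - 2 * Real.sin (Real.pi * y) ^ 2 := by
      rw [show 2 * Real.pi * y = 2 * (Real.pi * y) by ring, Real.cos_two_mul, Real.cos_sq']
      ring
    have h3 := Real.sin_sq_add_cos_sq (2 * Real.pi * y)
    rw [h2] at *
    norm_num
    nlinarith
  have h4 : sn (y : Ci) ^ 2 = |Real.sin (Real.pi * y)| ^ 2 := by rw [sq_abs]; exact h1
  exact (pow_left_inj₀ (sn_nonneg _) (abs_nonneg _) (by norm_num)).mp h4

end

section
open Finset MeasureTheory AddCircle Filter Topology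

theorem one_sub_ck_coe (r : ℕ) (y : ℝ) : 1 - ck r (y : Ci) = Real.sin (Real.pi * (2 ^ r * y)) ^ 2 := by
  have h1 : ex (2 ^ r) (y : Ci) = ex 1 ((2 ^ r * y : ℝ) : Ci) := by
    unfold ex
    rw [fourier_apply, fourier_apply]
    congr 2
    rw [one_smul]
    have : ((2 ^ r * y : ℝ) : Ci) = ((((2 ^ r : ℤ)) • y : ℝ) : Ci) := by
      congr 1
      rw [zsmul_eq_mul]
      push_cast
      rfl
    rw [this]
    rfl
  have h2 : 1 - ck r (y : Ci) = sn ((2 ^ r * y : ℝ) : Ci) ^ 2 := by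
    rw [one_sub_ck, h1]; rfl
  rw [h2, sn_coe, sq_abs]

theorem ch_window (r : ℕ) (x : Ci) (h1 : 1 / (4 * 2 ^ r) ≤ ‖x‖) (h2 : ‖x‖ ≤ 1 / (2 * 2 ^ r)) :
    1 / (4 * Real.pi ^ 2) ≤ ch r x := by
  obtain ⟨y, rfl, hy⟩ : ∃ y : ℝ, (y : Ci) = x ∧ |y| = ‖x‖ := by
    obtain ⟨y0, rfl⟩ := QuotientAddGroup.mk_surjective x
    refine ⟨y0 - round y0, ?_, ?_⟩
    · have : ((round y0 : ℝ) : Ci) = 0 := by
        have := AddCircle.coe_period (1:ℝ)
        have h : ((round y0 : ℝ) : Ci) = (round y0 : ℤ) • ((1 : ℝ) : Ci) := by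
          rw [← AddCircle.coe_zsmul]; simp
        rw [h, this, smul_zero]
      rw [AddCircle.coe_sub, this, sub_zero]
    · have h := AddCircle.norm_eq (1:ℝ) (x := y0)
      simp only [inv_one, one_mul, mul_one] at h
      exact h.symm
  rw [← hy] at h1 h2
  have hR : (0:ℝ) < 2 ^ r := by positivity
  have hpi := Real.pi_pos
  have h3 : 2 ^ r * |y| ≤ 1 / 2 := by
    have := mul_le_mul_of_nonneg_left h2 hR.le
    calc _ ≤ 2 ^ r * (1 / (2 * 2 ^ r)) := this
      _ = 1 / 2 := by field_simp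
  have h4 : 1 / 4 ≤ 2 ^ r * |y| := by
    have := mul_le_mul_of_nonneg_left h1 hR.le
    calc 1 / 4 = 2 ^ r * (1 / (4 * 2 ^ r)) := by field_simp
      _ ≤ _ := this
  have h5 : 1 / 4 ≤ 1 - ck r (y : Ci) := by
    rw [one_sub_ck_coe, ← sq_abs, Real.abs_sin_eq_sin_abs_of_abs_le_pi]
    · have e1 : |Real.pi * (2 ^ r * y)| = Real.pi * (2 ^ r * |y|) := by
        rw [abs_mul, abs_mul, abs_of_pos hpi, abs_of_pos hR]
      rw [e1]
      have h6 := Real.mul_le_sin (x := Real.pi * (2 ^ r * |y|)) (by positivity) (by nlinarith)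
      have h7 : 2 / Real.pi * (Real.pi * (2 ^ r * |y|)) = 2 * (2 ^ r * |y|) := by field_simp
      rw [h7] at h6
      nlinarith
    · rw [abs_mul, abs_mul, abs_of_pos hpi, abs_of_pos hR]
      nlinarith
  have h6 : sn (y : Ci) ^ 2 * 4 ^ r ≤ Real.pi ^ 2 / 4 := by
    have e1 : sn (y : Ci) ≤ Real.pi * |y| := by
      rw [sn_coe]
      calc |Real.sin (Real.pi * y)| ≤ |Real.pi * y| := Real.abs_sin_le_abs
        _ = _ := by rw [abs_mul, abs_of_pos hpi]
    have e2 : sn (y : Ci) * 2 ^ r ≤ Real.pi / 2 := by nlinarith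
    have e3 : 0 ≤ sn (y : Ci) * 2 ^ r := mul_nonneg (sn_nonneg _) hR.le
    have e4 : sn (y : Ci) ^ 2 * 4 ^ r = (sn (y : Ci) * 2 ^ r) ^ 2 := by
      rw [show (4 : ℝ) = 2 ^ 2 by norm_num, ← pow_mul, mul_comm 2 r, pow_mul]; ring
    rw [e4]
    nlinarith
  have h7 := sn_sq_qk r (y : Ci)
  have h8 := qk_nonneg r (y : Ci)
  have h9 : 1 - ck r (y : Ci) ≤ Real.pi ^ 2 / 4 * qk r (y : Ci) := by
    rw [← h7]; nlinarith
  have h10 : 1 / 16 ≤ Real.pi ^ 2 / 4 * ch r (y : Ci) := by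
    rw [ch_eq]
    nlinarith
  rw [div_le_iff₀ (by positivity)]
  linarith

theorem mu_ball {s : ℝ} (hs : 2 * s ≤ 1) : mu (Metric.closedBall (0 : Ci) s) = ENNReal.ofReal (2 * s) := by
  have h1 := AddCircle.volume_closedBall (T := (1:ℝ)) (x := 0) s
  rw [AddCircle.volume_eq_smul_haarAddCircle] at h1
  rw [min_eq_right hs] at h1
  simpa using h1

theorem ch_cube (r : ℕ) : 1 / (128 * Real.pi ^ 6) ≤ 2 ^ r * ∫ x, ch r x ^ 3 ∂mu := by
  set R : ℝ := 2 ^ r with hR
  have hR0 : 0 < R := by positivity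
  have hR1 : 1 ≤ R := one_le_pow₀ (by norm_num)
  set A := Metric.closedBall (0 : Ci) (1 / (2 * R)) \ Metric.closedBall (0 : Ci) (1 / (4 * R)) with hA
  have hAm : MeasurableSet A := Metric.isClosed_closedBall.measurableSet.diff Metric.isClosed_closedBall.measurableSet
  have hmA : mu A = ENNReal.ofReal (1 / (2 * R)) := by
    rw [hA, measure_sdiff]
    · rw [mu_ball, mu_ball, ← ENNReal.ofReal_sub _ (by positivity)]
      · congr 1; field_simp; norm_num
      · rw [show 2 * (1 / (4 * R)) = 1 / (2 * R) by field_simp; norm_num, div_le_one (by positivity)]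
        linarith
      · rw [show 2 * (1 / (2 * R)) = 1 / R by field_simp, div_le_one (by positivity)]
        linarith
    · apply Metric.closedBall_subset_closedBall
      apply one_div_le_one_div_of_le (by positivity)
      linarith
    · exact Metric.isClosed_closedBall.measurableSet.nullMeasurableSet
    · exact measure_ne_top _ _
  have hint : Integrable (fun x => ch r x ^ 3) mu :=
    ((cont_ch r).pow 3).integrable_of_hasCompactSupport (HasCompactSupport.of_compactSpace _)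
  have h1 : ∫ x in A, (1 / (4 * Real.pi ^ 2)) ^ 3 ∂mu ≤ ∫ x, ch r x ^ 3 ∂mu := by
    calc _ ≤ ∫ x in A, ch r x ^ 3 ∂mu := by
          refine setIntegral_mono_on (integrable_const _).integrableOn hint.integrableOn hAm fun x hx => ?_
          have hx1 : ‖x‖ ≤ 1 / (2 * R) := by simpa using hx.1
          have hx2 : 1 / (4 * R) < ‖x‖ := by
            have := hx.2
            rw [mem_closedBall_zero_iff] at this
            exact not_le.mp this
          exact pow_le_pow_left₀ (by positivity) (ch_window r x hx2.le hx1) 3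
      _ ≤ _ := setIntegral_le_integral hint (Eventually.of_forall fun x => by
          have := ch_nonneg r x
          show 0 ≤ ch r x ^ 3
          positivity)
  rw [setIntegral_const, measureReal_def, hmA, ENNReal.toReal_ofReal (by positivity), smul_eq_mul] at h1
  calc 1 / (128 * Real.pi ^ 6) = R * (1 / (2 * R) * (1 / (4 * Real.pi ^ 2)) ^ 3) := by
        field_simp; norm_num
    _ ≤ _ := mul_le_mul_of_nonneg_left h1 hR0.le

end

section
open Finset MeasureTheory AddCircle Filter Topology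

/-- Normalised Rudin-Shapiro polynomial. -/
noncomputable def rho (r : ℕ) (x : Ci) : ℂ := RS (8 * r) (6 * 2 ^ r) x / 2 ^ (4 * r)

theorem rho_bound (r : ℕ) (x : Ci) : ‖rho r x‖ ≤ 3 / 2 := by
  have h1 := RS_bound (8 * r) (6 * 2 ^ r) x
  have h2 : ‖rho r x‖ ^ 2 ≤ 2 := by
    unfold rho
    rw [norm_div, div_pow, norm_pow, ← pow_mul]
    have : ‖(2:ℂ)‖ = 2 := by simp
    rw [this, div_le_iff₀ (by positivity), show 4 * r * 2 = 8 * r by ring]
    exact h1
  nlinarith [norm_nonneg (rho r x)]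

theorem cont_RS (m L : ℕ) : Continuous (RS m L) := (Sp_RS m L).cont

theorem cont_rho (r : ℕ) : Continuous (rho r) := (cont_RS _ _).div_const _

/-- Terms of the analytic function. -/
noncomputable def hh (j : ℕ) (x : Ci) : ℂ := (ch (rr j) x : ℂ) * rho (rr j) x * ex (2 * 2 ^ rr j) x

theorem cont_chC (r : ℕ) : Continuous (fun x => (ch r x : ℂ)) := Complex.continuous_ofReal.comp (cont_ch r)

theorem cont_hh (j : ℕ) : Continuous (hh j) := ((cont_chC _).mul (cont_rho _)).mul (cont_ex _)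

theorem ch_le_De (j : ℕ) (x : Ci) : ch (rr j) x ≤ De j x := by
  have h1 : qk (rr j) x ≤ qk (ww j) x := qk_anti (by unfold rr; omega) x
  have h2 : qk (ww (j + 1)) x ≤ qk (rr j + 1) x := qk_anti (by rw [ww_succ]; omega) x
  unfold ch De
  linarith

theorem hh_le (j : ℕ) (x : Ci) : ‖hh j x‖ ≤ 3 / 2 * ch (rr j) x := by
  unfold hh
  rw [norm_mul, norm_mul, norm_ex, mul_one, Complex.norm_real, Real.norm_of_nonneg (ch_nonneg _ _), mul_comm]
  exact mul_le_mul_of_nonneg_right (rho_bound _ _) (ch_nonneg _ _)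

theorem dom_hh : Dom (3 / 2) hh where
  nn := by norm_num
  cont := cont_hh
  le := fun j x => (hh_le j x).trans (mul_le_mul_of_nonneg_left (ch_le_De j x) (by norm_num))

noncomputable def hf (x : Ci) : ℂ := ∑' j, hh j x

theorem Sp_rho (r : ℕ) : ∃ K, Sp 0 ((2 ^ (8 * r) - 1) * (6 * 2 ^ r)) K (rho r) := by
  have h := (Sp_RS (8 * r) (6 * 2 ^ r)).smul (1 / 2 ^ (4 * r))
  have h2 : (fun x => 1 / 2 ^ (4 * r) * RS (8 * r) (6 * 2 ^ r) x) = rho r := by
    ext x; unfold rho; ring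
  rw [h2] at h
  push_cast at h
  exact ⟨_, h⟩

theorem fc_hh (j : ℕ) (n : ℤ) (hn : n < 0) : ∫ x, hh j x * ex (-n) x ∂mu = 0 := by
  obtain ⟨K, hK⟩ := Sp_rho (rr j)
  have h1 := (((Sp_ch (rr j)).mul hK).mul (Sp_ex (2 * 2 ^ rr j))).mul (Sp_ex (-n))
  refine h1.int_self_zero (Or.inl ?_)
  linarith

theorem fc_hf (n : ℤ) (hn : n < 0) : fourierCoeff hf n = 0 := by
  rw [fc_eq]
  have h1 := dom_hh.tendsto (cont_ex (-n))
  have h2 : ∀ d, ∫ x, (∑ j ∈ range d, hh j x) * ex (-n) x ∂mu = 0 := by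
    intro d
    simp_rw [sum_mul]
    rw [integral_finsetSum]
    · exact sum_eq_zero fun j _ => fc_hh j n hn
    · intro j _
      exact int_of_cont ((cont_hh j).mul (cont_ex _))
  simp_rw [h2] at h1
  exact (tendsto_nhds_unique h1 tendsto_const_nhds)

/-- Test functions. -/
noncomputable def wt (j : ℕ) (x : Ci) : ℂ :=
  2 ^ rr j * ((ch (rr j) x : ℂ) * (ch (rr j) x : ℂ)) * (starRingEnd ℂ) (rho (rr j) x) * ex (2 ^ bb j - 2 * 2 ^ rr j) x

theorem cont_wt (j : ℕ) : Continuous (wt j) :=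
  ((continuous_const.mul ((cont_chC _).mul (cont_chC _))).mul (Complex.continuous_conj.comp (cont_rho _))).mul (cont_ex _)

theorem wt_norm (j : ℕ) (x : Ci) : ‖wt j x‖ ≤ 3 / 2 * (2 ^ rr j * ch (rr j) x ^ 2) := by
  unfold wt
  rw [norm_mul, norm_mul, norm_mul, norm_mul, norm_ex, mul_one, Complex.norm_real, RCLike.norm_conj,
    Real.norm_of_nonneg (ch_nonneg _ _), norm_pow]
  have : ‖(2:ℂ)‖ = 2 := by simp
  rw [this]
  have h1 := rho_bound (rr j) x
  have h2 : 0 ≤ 2 ^ rr j * (ch (rr j) x * ch (rr j) x) := by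
    have := ch_nonneg (rr j) x
    positivity
  calc _ ≤ 2 ^ rr j * (ch (rr j) x * ch (rr j) x) * (3 / 2) := mul_le_mul_of_nonneg_left h1 h2
    _ = _ := by ring

theorem wt_L1 (j : ℕ) : ∫ x, ‖wt j x‖ ∂mu ≤ 1 := by
  have h1 : ∀ x, ‖wt j x‖ ≤ 3 / 2 * (2 ^ rr j * ch (rr j) x) := by
    intro x
    refine (wt_norm j x).trans ?_
    have h2 := ch_nonneg (rr j) x
    have h3 := ch_le_one (rr j) x
    have h4 : ch (rr j) x ^ 2 ≤ ch (rr j) x := by nlinarith
    gcongr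
  calc _ ≤ ∫ x, 3 / 2 * (2 ^ rr j * ch (rr j) x) ∂mu := by
        refine integral_mono ?_ ?_ h1
        · exact ((cont_wt j).norm).integrable_of_hasCompactSupport (HasCompactSupport.of_compactSpace _)
        · exact (continuous_const.mul (continuous_const.mul (cont_ch _))).integrable_of_hasCompactSupport
            (HasCompactSupport.of_compactSpace _)
    _ = 3 / 4 := by
        rw [integral_const_mul, integral_const_mul, int_ch, pow_succ]
        field_simp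
        norm_num
    _ ≤ 1 := by norm_num

theorem bb_eq (j : ℕ) : (2 : ℤ) ^ bb j = 16 * 2 ^ rr j * 2 ^ (8 * rr j) := by
  unfold bb; ring

theorem wt_Sp (j : ℕ) : ∃ A B K, 0 < A ∧ Sp A B K (wt j) := by
  obtain ⟨K, hK⟩ := Sp_rho (rr j)
  have h1 := ((((Sp_ch (rr j)).mul (Sp_ch (rr j))).smul (2 ^ rr j)).mul hK.conj).mul
    (Sp_ex (2 ^ bb j - 2 * 2 ^ rr j))
  refine ⟨_, _, _, ?_, h1⟩
  rw [bb_eq]
  have h2 : (1 : ℤ) ≤ 2 ^ rr j := one_le_pow₀ (by norm_num)
  have h3 : (1 : ℤ) ≤ 2 ^ (8 * rr j) := one_le_pow₀ (by norm_num)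
  generalize (2 : ℤ) ^ rr j = a at h2 ⊢
  generalize (2 : ℤ) ^ (8 * rr j) = b at h3 ⊢
  nlinarith [mul_le_mul h2 h3 (by norm_num) (by linarith)]

theorem wt_analytic (j : ℕ) {g : Ci → ℂ} (hg : Integrable g mu) (h0 : ∀ n < 0, fourierCoeff g n = 0) :
    ∫ x, g x * wt j x ∂mu = 0 := by
  obtain ⟨A, B, K, hA, hS⟩ := wt_Sp j
  refine hS.int_zero hg fun n hn _ => ?_
  have := h0 (-n) (by omega)
  rw [fc_eq, neg_neg] at this
  exact this

/-- `conj` of the Rudin-Shapiro polynomial as a finite Fourier sum. -/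
theorem conj_RS (m L : ℕ) (hL : 0 < L) : ∃ (S : Finset ℤ) (f : ℤ → ℂ), (∑ z ∈ S, ‖f z‖ ^ 4 = 2 ^ m) ∧
    ∀ x, (starRingEnd ℂ) (RS m L x) = Pf S f x := by
  have hLZ : (L : ℤ) ≠ 0 := by exact_mod_cast hL.ne'
  have hinj : Set.InjOn (fun k : ℕ => -((k : ℤ) * L)) (range (2 ^ m) : Finset ℕ) := by
    intro a _ b _ h
    simp only [neg_inj] at h
    exact_mod_cast mul_right_cancel₀ hLZ h
  refine ⟨(range (2 ^ m)).image (fun k : ℕ => -((k : ℤ) * L)), fun z => (ep m (Int.toNat (-z / L)) : ℂ), ?_, ?_⟩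
  · simp only [norm_ep]
    rw [sum_image hinj]
    simp
  · intro x
    unfold Pf RS
    rw [sum_image hinj, map_sum]
    refine sum_congr rfl fun k _ => ?_
    rw [map_mul, Complex.conj_ofReal, ← ex_neg]
    have : Int.toNat (-(-((k : ℤ) * L)) / L) = k := by
      rw [neg_neg, Int.mul_ediv_cancel _ hLZ]; simp
    dsimp only
    rw [this]
    push_cast
    rfl

theorem wt_mult {ψ : Ci → ℂ} (hψ : Integrable ψ mu) (h : IsMul 4 ψ) :
    ∃ C : ℝ, ∀ j, ‖∫ x, ψ x * wt j x ∂mu‖ ≤ C / 2 ^ rr j := by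
  obtain ⟨C, hC0, hC⟩ := strong_weak h
  refine ⟨4 * C, fun j => ?_⟩
  set r := rr j with hr
  obtain ⟨S, f, hf, hP⟩ := conj_RS (8 * r) (6 * 2 ^ r) (by positivity)
  have hb : ∀ n, ‖∫ x, (ψ x * (Pf S f x * ex (2 ^ bb j - 2 * 2 ^ r) x)) * ex n x ∂mu‖ ≤ C * 2 ^ (2 * r) := by
    intro n
    have h1 := hC S f (2 ^ (2 * r)) (by positivity) (by rw [hf, ← pow_mul]; apply le_of_eq; congr 1; ring)
      (-(n + (2 ^ bb j - 2 * 2 ^ r)))
    rw [cv_eq hψ] at h1
    refine le_trans (le_of_eq ?_) h1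
    congr 2
    ext x
    rw [neg_neg, ex_add]
    ring
  have h2 := ((Sp_ch r).mul (Sp_ch r)).int_bound (g := fun x => ψ x * (Pf S f x * ex (2 ^ bb j - 2 * 2 ^ r) x))
    (integrable_mul_cont hψ ((cont_Pf _ _).mul (cont_ex _))) hb
  have h3 : ∫ x, ψ x * wt j x ∂mu = (2 ^ r / 2 ^ (4 * r)) * ∫ x, (fun x => ψ x * (Pf S f x *
      ex (2 ^ bb j - 2 * 2 ^ r) x)) x * ((ch r x : ℂ) * (ch r x : ℂ)) ∂mu := by
    rw [← integral_const_mul]
    congr 1
    ext x
    unfold wt rho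
    rw [map_div₀, hP, map_pow, map_ofNat, ← hr]
    ring
  rw [h3, norm_mul]
  have h4 : ‖(2 ^ r / 2 ^ (4 * r) : ℂ)‖ = 2 ^ r / 2 ^ (4 * r) := by
    rw [norm_div, norm_pow, norm_pow]; simp
  rw [h4]
  calc _ ≤ 2 ^ r / 2 ^ (4 * r) * (2 * 2 * (C * 2 ^ (2 * r))) := mul_le_mul_of_nonneg_left h2 (by positivity)
    _ = 4 * C / 2 ^ r := by
      rw [show 4 * r = r + 2 * r + r by ring, pow_add, pow_add]
      field_simp
      ring

end

section
open Finset MeasureTheory AddCircle Filter Topology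

theorem phi_norm (x : Ci) : ‖phi x‖ ≤ 1 := dom_ph.norm_tsum x

theorem hf_tail (j : ℕ) (x : Ci) : ‖hf x - hh j x‖ ≤ 3 / 2 * (1 - De j x) := dom_hh.tail j x

theorem phi_tail (j : ℕ) (x : Ci) : ‖phi x - (Cb (bb j) x : ℂ)‖ ≤ 2 * (1 - De j x) := by
  have h1 : ‖phi x - (ph j x : ℂ)‖ ≤ 1 * (1 - De j x) := dom_ph.tail j x
  have h2 : ‖(ph j x : ℂ) - (Cb (bb j) x : ℂ)‖ ≤ 1 - De j x := by
    rw [← Complex.ofReal_sub, Complex.norm_real, Real.norm_eq_abs]
    have h3 : |Cb (bb j) x| ≤ 1 := by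
      unfold Cb
      have := ck_nonneg (bb j) x
      have := ck_le_one (bb j) x
      rw [abs_le]; constructor <;> linarith
    have h4 := qk_nonneg (ww (j + 1)) x
    have h5 := qk_le_one (ww j) x
    have h6 : ph j x - Cb (bb j) x = -(Cb (bb j) x * (1 - qk (ww j) x)) - qk (ww (j + 1)) x := by
      unfold ph; ring
    rw [h6]
    calc _ ≤ |-(Cb (bb j) x * (1 - qk (ww j) x))| + |qk (ww (j + 1)) x| := abs_sub _ _
      _ = |Cb (bb j) x| * (1 - qk (ww j) x) + qk (ww (j + 1)) x := by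
        rw [abs_neg, abs_mul, abs_of_nonneg (by linarith : 0 ≤ 1 - qk (ww j) x), abs_of_nonneg h4]
      _ ≤ 1 * (1 - qk (ww j) x) + qk (ww (j + 1)) x := by
        have := mul_le_mul_of_nonneg_right h3 (by linarith : 0 ≤ 1 - qk (ww j) x)
        linarith
      _ = _ := by unfold De; ring
  have h3 : phi x - (Cb (bb j) x : ℂ) = (phi x - (ph j x : ℂ)) + ((ph j x : ℂ) - (Cb (bb j) x : ℂ)) := by ring
  rw [h3]
  refine (norm_add_le _ _).trans ?_
  linarith

theorem err_pt (j : ℕ) (x : Ci) : ‖(hf x * phi x) * wt j x - (hh j x * (Cb (bb j) x : ℂ)) * wt j x‖ ≤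
    7 * (2 ^ rr j * (ch (rr j) x ^ 2 * (1 - De j x))) := by
  have h1 := hf_tail j x
  have h2 := phi_tail j x
  have h3 := phi_norm x
  have h4 : ‖hh j x‖ ≤ 3 / 2 := by
    have := hh_le j x
    have := ch_le_one (rr j) x
    linarith
  have h5 := wt_norm j x
  have h6 : 0 ≤ 1 - De j x := by
    have h7 := qk_nonneg (ww (j + 1)) x
    have h8 := qk_le_one (ww j) x
    unfold De; linarith
  have e : (hf x * phi x) * wt j x - (hh j x * (Cb (bb j) x : ℂ)) * wt j x =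
      ((hf x - hh j x) * phi x + hh j x * (phi x - (Cb (bb j) x : ℂ))) * wt j x := by ring
  rw [e, norm_mul]
  have h8 : ‖(hf x - hh j x) * phi x + hh j x * (phi x - (Cb (bb j) x : ℂ))‖ ≤ 9 / 2 * (1 - De j x) := by
    refine (norm_add_le _ _).trans ?_
    rw [norm_mul, norm_mul]
    have a1 : ‖hf x - hh j x‖ * ‖phi x‖ ≤ (3 / 2 * (1 - De j x)) * 1 :=
      mul_le_mul h1 h3 (norm_nonneg _) (by positivity)
    have a2 : ‖hh j x‖ * ‖phi x - (Cb (bb j) x : ℂ)‖ ≤ (3 / 2) * (2 * (1 - De j x)) :=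
      mul_le_mul h4 h2 (norm_nonneg _) (by norm_num)
    linarith
  have h9 : 0 ≤ 2 ^ rr j * ch (rr j) x ^ 2 := by positivity
  calc _ ≤ (9 / 2 * (1 - De j x)) * (3 / 2 * (2 ^ rr j * ch (rr j) x ^ 2)) :=
        mul_le_mul h8 h5 (norm_nonneg _) (by positivity)
    _ = 27 / 4 * (2 ^ rr j * (ch (rr j) x ^ 2 * (1 - De j x))) := by ring
    _ ≤ 7 * (2 ^ rr j * (ch (rr j) x ^ 2 * (1 - De j x))) := by
      have : 0 ≤ 2 ^ rr j * (ch (rr j) x ^ 2 * (1 - De j x)) := by positivity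
      linarith

/-- Pointwise bound of the error kernel. -/
theorem err_ker (j : ℕ) (x : Ci) : 2 ^ rr j * (ch (rr j) x ^ 2 * (1 - De j x)) ≤
    2 ^ ww j * ch (rr j) x + 2 ^ rr j * qk (ww (j + 1)) x := by
  have h1 := one_sub_qk_le (ww j) x
  have h2 := sn_qk_le (rr j) x
  have h3 := ch_nonneg (rr j) x
  have h4 := ch_le_qk (rr j) x
  have h5 := ch_le_one (rr j) x
  have h6 := qk_nonneg (ww (j + 1)) x
  have h7 := sn_nonneg x
  have h8 : ch (rr j) x ^ 2 ≤ 1 := by nlinarith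
  have h9 : 2 ^ rr j * (ch (rr j) x ^ 2 * qk (ww (j + 1)) x) ≤ 2 ^ rr j * qk (ww (j + 1)) x := by
    have : ch (rr j) x ^ 2 * qk (ww (j + 1)) x ≤ 1 * qk (ww (j + 1)) x := mul_le_mul_of_nonneg_right h8 h6
    have := mul_le_mul_of_nonneg_left this (by positivity : (0:ℝ) ≤ 2 ^ rr j)
    linarith
  have h10 : 2 ^ rr j * (ch (rr j) x ^ 2 * (1 - qk (ww j) x)) ≤ 2 ^ ww j * ch (rr j) x := by
    calc _ ≤ 2 ^ rr j * (ch (rr j) x ^ 2 * (2 ^ ww j * sn x)) := by gcongr
      _ = (2 ^ ww j * ch (rr j) x) * (sn x * ch (rr j) x * 2 ^ rr j) := by ring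
      _ ≤ (2 ^ ww j * ch (rr j) x) * (sn x * qk (rr j) x * 2 ^ rr j) := by gcongr
      _ ≤ (2 ^ ww j * ch (rr j) x) * 1 := by gcongr
      _ = _ := mul_one _
  have h11 : 2 ^ rr j * (ch (rr j) x ^ 2 * (1 - De j x)) =
      2 ^ rr j * (ch (rr j) x ^ 2 * (1 - qk (ww j) x)) + 2 ^ rr j * (ch (rr j) x ^ 2 * qk (ww (j + 1)) x) := by
    unfold De; ring
  rw [h11]
  linarith

theorem intR {F : Ci → ℝ} (hF : Continuous F) : Integrable F mu :=
  hF.integrable_of_hasCompactSupport (HasCompactSupport.of_compactSpace _)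

theorem err_int (j : ℕ) : ∫ x, 7 * (2 ^ ww j * ch (rr j) x + 2 ^ rr j * qk (ww (j + 1)) x) ∂mu ≤ 7 / 2 ^ (j + 1) := by
  have iA : Integrable (fun x => 2 ^ ww j * ch (rr j) x) mu := intR (continuous_const.mul (cont_ch _))
  have iB : Integrable (fun x => 2 ^ rr j * qk (ww (j + 1)) x) mu := intR (continuous_const.mul (cont_qk _))
  rw [integral_const_mul, integral_add iA iB, integral_const_mul, integral_const_mul, int_ch, int_qk]
  have h1 : (2:ℝ) ^ ww j * (1 / 2 ^ (rr j + 1)) = 1 / 2 ^ (j + 2) := by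
    unfold rr
    rw [show ww j + j + 1 + 1 = ww j + (j + 2) by ring, pow_add]
    field_simp
  have h2 : (2:ℝ) ^ rr j * (1 / 2 ^ (ww (j + 1))) ≤ 1 / 2 ^ (j + 2) := by
    rw [ww_succ, mul_one_div, div_le_div_iff₀ (by positivity) (by positivity), one_mul, ← pow_add]
    exact pow_le_pow_right₀ (by norm_num) (by unfold rr; omega)
  rw [h1]
  have h3 : (7:ℝ) * (1 / 2 ^ (j + 2) + 1 / 2 ^ (j + 2)) = 7 / 2 ^ (j + 1) := by
    rw [show j + 2 = (j + 1) + 1 by ring, pow_succ (2:ℝ) (j + 1)]; field_simp; norm_num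
  linarith

theorem int_hp : Integrable (fun x => hf x * phi x) mu := by
  refine dom_hh.integrable.mul_bdd (c := 1) dom_ph.aesm (Eventually.of_forall phi_norm)

theorem main_err (j : ℕ) : ‖∫ x, (hf x * phi x) * wt j x ∂mu - ∫ x, (hh j x * (Cb (bb j) x : ℂ)) * wt j x ∂mu‖
    ≤ 7 / 2 ^ (j + 1) := by
  have i1 : Integrable (fun x => (hf x * phi x) * wt j x) mu := integrable_mul_cont int_hp (cont_wt j)
  have c2 : Continuous (fun x => (hh j x * (Cb (bb j) x : ℂ)) * wt j x) :=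
    ((cont_hh j).mul (Complex.continuous_ofReal.comp (cont_Cb _))).mul (cont_wt j)
  rw [← integral_sub i1 (int_of_cont c2)]
  refine (norm_integral_le_of_norm_le (intR ?_) (Eventually.of_forall fun x => ?_)).trans (err_int j)
  · exact continuous_const.mul ((continuous_const.mul (cont_ch _)).add (continuous_const.mul (cont_qk _)))
  · refine (err_pt j x).trans ?_
    exact mul_le_mul_of_nonneg_left (err_ker j x) (by norm_num)

theorem alg_id (c A Ab E1 E2 Ea Em D R : ℂ) (e1 : E1 * E2 = Ea) (e2 : Em * Ea = 1) :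
    (c * (A / D) * E1) * ((Ea + Em) / 2) * (R * (c * c) * (Ab / D) * E2) =
      R / 2 / (D * D) * (c * c * c * (A * Ab) * (Ea * Ea)) + R / 2 / (D * D) * (c * c * c * (A * Ab)) := by
  linear_combination (R * c ^ 3 * A * Ab / (2 * D * D)) * (Ea + Em) * e1 + (R * c ^ 3 * A * Ab / (2 * D * D)) * e2

/-- The main term. -/
theorem main_term (j : ℕ) : ∫ x, (hh j x * (Cb (bb j) x : ℂ)) * wt j x ∂mu =
    ((2 ^ rr j / 2 * ∫ x, ch (rr j) x ^ 3 ∂mu : ℝ) : ℂ) := by
  set r := rr j with hr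
  set G : Ci → ℂ := fun x => (ch r x : ℂ) * (ch r x : ℂ) * (ch r x : ℂ) with hG
  have hGS := ((Sp_ch r).mul (Sp_ch r)).mul (Sp_ch r)
  set PP : Ci → ℂ := fun x => RS (8 * r) (6 * 2 ^ r) x * (starRingEnd ℂ) (RS (8 * r) (6 * 2 ^ r) x) with hPP
  have hPS := (Sp_RS (8 * r) (6 * 2 ^ r)).mul (Sp_RS (8 * r) (6 * 2 ^ r)).conj
  have h1 : ∫ x, G x * PP x * ex (2 * 2 ^ bb j) x ∂mu = 0 := by
    refine ((hGS.mul hPS).mul (Sp_ex (2 * 2 ^ bb j))).int_self_zero (Or.inl ?_)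
    rw [bb_eq, ← hr]
    push_cast
    have h2 : (1 : ℤ) ≤ 2 ^ r := one_le_pow₀ (by norm_num)
    have h3 : (1 : ℤ) ≤ 2 ^ (8 * r) := one_le_pow₀ (by norm_num)
    generalize (2 : ℤ) ^ r = a at h2 ⊢
    generalize (2 : ℤ) ^ (8 * r) = b at h3 ⊢
    nlinarith [mul_le_mul h2 h3 (by norm_num) (by linarith)]
  have h2 : ∫ x, G x * PP x ∂mu = 2 ^ (8 * r) * ∫ x, G x ∂mu := by
    refine RS_orth (8 * r) (6 * 2 ^ r) (G := G) (K := _) (hGS.mono ?_ ?_ le_rfl)
    · push_cast; linarith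
    · push_cast; linarith
  have h3 : ∫ x, G x ∂mu = ((∫ x, ch r x ^ 3 ∂mu : ℝ) : ℂ) := by
    have e1 : ∫ x, ((ch r x ^ 3 : ℝ) : ℂ) ∂mu = ((∫ x, ch r x ^ 3 ∂mu : ℝ) : ℂ) := integral_ofReal
    rw [← e1]
    refine integral_congr_ae (Eventually.of_forall fun x => ?_)
    simp only [hG]
    push_cast
    ring
  have hGc : Continuous G := hGS.cont
  have hPc : Continuous PP := hPS.cont
  have h4 : ∀ x, (hh j x * (Cb (bb j) x : ℂ)) * wt j x = 2 ^ r / 2 / 2 ^ (8 * r) * (G x * PP x * ex (2 * 2 ^ bb j) x)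
      + 2 ^ r / 2 / 2 ^ (8 * r) * (G x * PP x) := by
    intro x
    have e0 : ex (2 * 2 ^ bb j) x = ex (2 ^ bb j) x * ex (2 ^ bb j) x := by rw [two_mul, ex_add]
    have e1 : ex (2 * 2 ^ r) x * ex (2 ^ bb j - 2 * 2 ^ r) x = ex (2 ^ bb j) x := by
      rw [← ex_add, show (2 * 2 ^ r + (2 ^ bb j - 2 * 2 ^ r) : ℤ) = 2 ^ bb j by ring]
    have e2 : ex (-(2 ^ bb j)) x * ex (2 ^ bb j) x = 1 := by rw [← ex_add]; simp [ex_zero]
    have e3 : ((2:ℂ) ^ (4 * r)) * 2 ^ (4 * r) = 2 ^ (8 * r) := by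
      rw [← pow_add, show 4 * r + 4 * r = 8 * r by ring]
    unfold hh wt rho
    rw [Cb_eq, ← hr, map_div₀, map_pow, map_ofNat]
    simp only [hG, hPP]
    rw [e0, ← e3]
    exact alg_id _ _ _ _ _ _ _ _ _ e1 e2
  simp_rw [h4]
  have iA : Integrable (fun x => 2 ^ r / 2 / 2 ^ (8 * r) * (G x * PP x * ex (2 * 2 ^ bb j) x)) mu :=
    int_of_cont (continuous_const.mul ((hGc.mul hPc).mul (cont_ex _)))
  have iB : Integrable (fun x => 2 ^ r / 2 / 2 ^ (8 * r) * (G x * PP x)) mu :=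
    int_of_cont (continuous_const.mul (hGc.mul hPc))
  rw [integral_add iA iB, integral_const_mul, integral_const_mul, h1, h2, h3]
  push_cast
  field_simp
  ring

end

section
open Finset MeasureTheory AddCircle Filter Topology

theorem isHinf_hf : IsHinf hf := ⟨dom_hh.memLp, fc_hf⟩

theorem isMp_phi : IsMp 4 phi := ⟨dom_ph.memLp, isMul_phi⟩

/-- Sanity check: for `p = 4` the definition of `M_p` is unchanged if the multiplier inequality is only
required for finitely supported sequences (trigonometric polynomials). -/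
theorem isMp_four_iff (φ : UnitAddCircle → ℂ) : IsMp 4 φ ↔ MemLp φ ⊤ haarAddCircle ∧ ∃ C : ℝ, 0 ≤ C ∧
    ∀ (S : Finset ℤ) (f : ℤ → ℂ) (T : Finset ℤ),
      ∑ n ∈ T, ‖∑ m ∈ S, fourierCoeff φ (n - m) * f m‖ ^ 4 ≤ C * ∑ m ∈ S, ‖f m‖ ^ 4 := by
  constructor
  · rintro ⟨h1, h2⟩
    exact ⟨h1, strong_weak' h2⟩
  · rintro ⟨h1, C, hC, h2⟩
    exact ⟨h1, weak_strong hC h2⟩

theorem isMp_zero (p : ENNReal) : IsMp p (fun _ => 0) := by
  refine ⟨MemLp.zero, 0, fun f => ⟨0, fun n => ?_, ?_⟩⟩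
  · have : ∀ m, fourierCoeff (fun _ : UnitAddCircle => (0:ℂ)) (n - m) * f m = 0 := by
      intro m
      simp [fourierCoeff]
    simp only [this]
    exact hasSum_zero
  · simp

theorem isHinf_zero : IsHinf (fun _ => 0) := ⟨MemLp.zero, fun n _ => by simp [fourierCoeff]⟩

theorem inX_of_isHinf {p : ENNReal} {g : UnitAddCircle → ℂ} (h : IsHinf g) : InX p g := by
  refine ⟨h.1, fun ε _ => ⟨g, fun _ => 0, h, isMp_zero p, ?_⟩⟩
  have : (fun x => g x - (g x + 0)) = fun _ => (0:ℂ) := by ext x; simp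
  rw [this, eLpNorm_zero']
  exact bot_le

theorem inX_of_isMp {p : ENNReal} {φ : UnitAddCircle → ℂ} (h : IsMp p φ) : InX p φ := by
  refine ⟨h.1, fun ε _ => ⟨fun _ => 0, φ, isHinf_zero, h, ?_⟩⟩
  have : (fun x => φ x - (0 + φ x)) = fun _ => (0:ℂ) := by ext x; simp
  rw [this, eLpNorm_zero']
  exact bot_le

theorem not_inX : ¬ InX 4 (fun x => hf x * phi x) := by
  rintro ⟨-, h⟩
  set c : ℝ := 1 / (256 * Real.pi ^ 6) with hc
  have hpi := Real.pi_pos
  have hc0 : 0 < c := by positivity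
  obtain ⟨g, ψ, hg, hψ, hle⟩ := h (c / 2) (by positivity)
  have ig : Integrable g mu := hg.1.integrable le_top
  have iψ : Integrable ψ mu := hψ.1.integrable le_top
  obtain ⟨C, hC⟩ := wt_mult iψ hψ.2
  -- a.e. bound
  have hae : ∀ᵐ x ∂mu, ‖hf x * phi x - (g x + ψ x)‖ ≤ c / 2 := by
    rw [eLpNorm_exponent_top] at hle
    have h1 := enorm_ae_le_eLpNormEssSup (fun x => hf x * phi x - (g x + ψ x)) mu
    filter_upwards [h1] with x hx
    have h2 := hx.trans hle
    rw [← ofReal_norm, ENNReal.ofReal_le_ofReal_iff (by positivity)] at h2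
    exact h2
  have key : ∀ j : ℕ, c / 2 ≤ (|C| + 7) / 2 ^ j := by
    intro j
    have e1 := main_err j
    rw [main_term] at e1
    have e2 : c ≤ 2 ^ rr j / 2 * ∫ x, ch (rr j) x ^ 3 ∂mu := by
      have := ch_cube (rr j)
      have h3 : c = (1 / (128 * Real.pi ^ 6)) / 2 := by rw [hc]; field_simp; norm_num
      rw [h3]
      linarith
    have iw : Integrable (fun x => ‖wt j x‖) mu := intR (cont_wt j).norm
    have ihp : Integrable (fun x => (hf x * phi x) * wt j x) mu := integrable_mul_cont int_hp (cont_wt j)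
    have igw : Integrable (fun x => g x * wt j x) mu := integrable_mul_cont ig (cont_wt j)
    have iψw : Integrable (fun x => ψ x * wt j x) mu := integrable_mul_cont iψ (cont_wt j)
    have e3 : ∫ x, (hf x * phi x) * wt j x ∂mu = ∫ x, (hf x * phi x - (g x + ψ x)) * wt j x ∂mu +
        ∫ x, ψ x * wt j x ∂mu := by
      have e4 : ∫ x, (hf x * phi x - (g x + ψ x)) * wt j x ∂mu =
          ∫ x, (hf x * phi x) * wt j x ∂mu - (∫ x, g x * wt j x ∂mu + ∫ x, ψ x * wt j x ∂mu) := by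
        have iadd : Integrable (fun x => g x * wt j x + ψ x * wt j x) mu := igw.add iψw
        rw [← integral_add igw iψw, ← integral_sub ihp iadd]
        congr 1
        ext x
        ring
      rw [e4, wt_analytic j ig hg.2]
      ring
    have e5 : ‖∫ x, (hf x * phi x - (g x + ψ x)) * wt j x ∂mu‖ ≤ c / 2 := by
      calc _ ≤ ∫ x, c / 2 * ‖wt j x‖ ∂mu := by
            refine norm_integral_le_of_norm_le (iw.const_mul _) ?_
            filter_upwards [hae] with x hx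
            rw [norm_mul]
            exact mul_le_mul_of_nonneg_right hx (norm_nonneg _)
        _ = c / 2 * ∫ x, ‖wt j x‖ ∂mu := integral_const_mul _ _
        _ ≤ c / 2 * 1 := mul_le_mul_of_nonneg_left (wt_L1 j) (by positivity)
        _ = c / 2 := mul_one _
    have e6 : ‖∫ x, (hf x * phi x) * wt j x ∂mu‖ ≤ c / 2 + C / 2 ^ rr j := by
      rw [e3]
      exact (norm_add_le _ _).trans (add_le_add e5 (hC j))
    have e7 : c ≤ ‖((2 ^ rr j / 2 * ∫ x, ch (rr j) x ^ 3 ∂mu : ℝ) : ℂ)‖ := by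
      rw [Complex.norm_real]
      exact e2.trans (le_abs_self _)
    have e8 : ‖((2 ^ rr j / 2 * ∫ x, ch (rr j) x ^ 3 ∂mu : ℝ) : ℂ)‖ ≤
        ‖∫ x, (hf x * phi x) * wt j x ∂mu‖ + 7 / 2 ^ (j + 1) := by
      have := norm_sub_norm_le ((2 ^ rr j / 2 * ∫ x, ch (rr j) x ^ 3 ∂mu : ℝ) : ℂ)
        (∫ x, (hf x * phi x) * wt j x ∂mu)
      rw [norm_sub_rev] at this
      linarith
    have e9 : C / 2 ^ rr j ≤ |C| / 2 ^ j := by
      have h4 : (2:ℝ) ^ j ≤ 2 ^ rr j := pow_le_pow_right₀ (by norm_num) (by unfold rr; omega)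
      exact div_le_div₀ (abs_nonneg _) (le_abs_self _) (by positivity) h4
    have e10 : (7:ℝ) / 2 ^ (j + 1) ≤ 7 / 2 ^ j := by
      apply div_le_div_of_nonneg_left (by norm_num) (by positivity)
      exact pow_le_pow_right₀ (by norm_num) (by omega)
    rw [add_div]
    linarith
  have hlim : Tendsto (fun j : ℕ => (|C| + 7) / (2:ℝ) ^ j) atTop (𝓝 0) := by
    have h5 := (tendsto_pow_atTop_nhds_zero_of_lt_one (r := (1 / 2 : ℝ)) (by norm_num) (by norm_num)).const_mul (|C| + 7)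
    rw [mul_zero] at h5
    refine h5.congr fun j => ?_
    rw [one_div, inv_pow]; rfl
  have := ge_of_tendsto' hlim key
  linarith

theorem result : ∃ u v : UnitAddCircle → ℂ, (IsHinf u ∧ IsMp 4 v) ∧ InX 4 u ∧ InX 4 v ∧
    ¬ InX 4 (fun x => u x * v x) :=
  ⟨hf, phi, ⟨isHinf_hf, isMp_phi⟩, inX_of_isHinf isHinf_hf, inX_of_isMp isMp_phi, not_inX⟩

end

end Pool.Agent.Results.MP_bd9a46_an.NotAlgebra
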